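import Pool.Agent.Lib_MP_70e04f_thin.TFinal

/-!
# The strip of width one seventh (SHGH): definitions

See `Blueprint.md`.
-/

set_option autoImplicit false

namespace Pool.MP_70e04f_ag.Strip

open MvPolynomial

/-- geometric irreducibility -/
def GIrr {k : Type} [Field k] (F : A2 k) : Prop :=
  Irreducible (MvPolynomial.map (algebraMap k (AlgebraicClosure k)) F)

end Pool.MP_70e04f_ag.Strip
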