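import Pool.Agent.Lib_MP_70e04f_gon.GDefs

/-!
# Piece GDERA: extension of a derivation to the fraction field
-/

set_option autoImplicit false

namespace Pool.MP_70e04f_ag.Strip

theorem GDerA_fst {K : Type*} [Field K] (a b : K) :
    ((TrivSqZeroExt.inl a + TrivSqZeroExt.inr b : TrivSqZeroExt K K)).fst = a := by
  rw [TrivSqZeroExt.fst_add, TrivSqZeroExt.fst_inl, TrivSqZeroExt.fst_inr, add_zero]

theorem GDerA_snd {K : Type*} [Field K] (a b : K) :
    ((TrivSqZeroExt.inl a + TrivSqZeroExt.inr b : TrivSqZeroExt K K)).snd = b := by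
  rw [TrivSqZeroExt.snd_add, TrivSqZeroExt.snd_inl, TrivSqZeroExt.snd_inr, zero_add]

/-- the ring homomorphism into the dual numbers attached to a derivation -/
noncomputable def GDerA_hom {R K : Type*} [CommRing R] [Field K] [Algebra R K]
    (δ : Derivation ℤ R R) : R →+* TrivSqZeroExt K K where
  toFun r := TrivSqZeroExt.inl (algebraMap R K r) + TrivSqZeroExt.inr (algebraMap R K (δ r))
  map_one' := by
    apply TrivSqZeroExt.ext
    · rw [GDerA_fst, map_one, TrivSqZeroExt.fst_one]
    · rw [GDerA_snd, Derivation.map_one_eq_zero, map_zero, TrivSqZeroExt.snd_one]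
  map_zero' := by
    apply TrivSqZeroExt.ext
    · rw [GDerA_fst, map_zero, TrivSqZeroExt.fst_zero]
    · rw [GDerA_snd, map_zero, map_zero, TrivSqZeroExt.snd_zero]
  map_add' a b := by
    apply TrivSqZeroExt.ext
    · rw [GDerA_fst, TrivSqZeroExt.fst_add, GDerA_fst, GDerA_fst, map_add]
    · rw [GDerA_snd, TrivSqZeroExt.snd_add, GDerA_snd, GDerA_snd, map_add, map_add]
  map_mul' a b := by
    apply TrivSqZeroExt.ext
    · rw [GDerA_fst, TrivSqZeroExt.fst_mul, GDerA_fst, GDerA_fst, map_mul]
    · rw [GDerA_snd, TrivSqZeroExt.snd_mul, GDerA_fst, GDerA_fst, GDerA_snd, GDerA_snd,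
        Derivation.leibniz, map_add, smul_eq_mul, smul_eq_mul, map_mul, map_mul, smul_eq_mul,
        op_smul_eq_mul]
      ring

/-- PROOF. Let `φ = algebraMap R K`. The map `r ↦ (φ r, φ (δ r))` is a ring homomorphism from `R` to
`TrivSqZeroExt K K` which sends nonzero `r` to units; it extends to `Φ : K →+* TrivSqZeroExt K K`
(`IsLocalization.lift`), `(Φ x).fst = x` (both are extensions of `φ`: `IsLocalization.ringHom_ext`), and
`d x = (Φ x).snd` is a derivation which extends `δ`. -/
theorem exists_der_frac {R K : Type*} [CommRing R] [IsDomain R] [Field K] [Algebra R K]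
    [IsFractionRing R K] (δ : Derivation ℤ R R) :
    ∃ d : Derivation ℤ K K, ∀ r, d (algebraMap R K r) = algebraMap R K (δ r) := by
  have hg : ∀ y : nonZeroDivisors R, IsUnit (GDerA_hom (K := K) δ y) := by
    intro y
    rw [TrivSqZeroExt.isUnit_iff_isUnit_fst]
    have h : (GDerA_hom (K := K) δ (y : R)).fst = algebraMap R K (y : R) := GDerA_fst _ _
    rw [h]
    exact IsLocalization.map_units K y
  let Φ : K →+* TrivSqZeroExt K K := IsLocalization.lift hg
  have hΦ : ∀ r, Φ (algebraMap R K r) = GDerA_hom δ r := fun r => IsLocalization.lift_eq hg r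
  have hfst : ∀ x, (Φ x).fst = x := by
    have h : ((TrivSqZeroExt.fstHom ℤ K K).toRingHom.comp Φ) = RingHom.id K := by
      apply IsLocalization.ringHom_ext (nonZeroDivisors R)
      refine RingHom.ext (fun r => ?_)
      change (Φ (algebraMap R K r)).fst = algebraMap R K r
      rw [hΦ]
      exact GDerA_fst _ _
    intro x
    exact RingHom.congr_fun h x
  refine ⟨Derivation.mk' ({ toFun := fun x => (Φ x).snd
                            map_zero' := by simp
                            map_add' := fun x y => by simp } : K →+ K).toIntLinearMap ?_, ?_⟩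
  · intro a b
    simp [hfst, mul_comm]
  · intro r
    change (Φ (algebraMap R K r)).snd = _
    rw [hΦ]
    exact GDerA_snd _ _

end Pool.MP_70e04f_ag.Strip
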