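import Pool.Agent.Lib_MP_70e04f_gon.GDefs

/-!
# Piece GDESC: descent of a linear relation modulo a curve
-/

set_option autoImplicit false

namespace Pool.MP_70e04f_ag.Strip

open MvPolynomial

theorem GDesc_coeff {k K : Type*} [Field k] [Field K] [Algebra k K] (f : K →ₗ[k] k) :
    ∃ Λ : A2 K → A2 k, ∀ H s, coeff s (Λ H) = f (coeff s H) := by
  classical
  refine ⟨fun H => ∑ s ∈ H.support, monomial s (f (coeff s H)), fun H s => ?_⟩
  simp only [coeff_sum, coeff_monomial]
  rw [Finset.sum_ite_eq']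
  split_ifs with h
  · rfl
  · rw [notMem_support_iff.1 h, map_zero]

/-- PROOF. Suppose `α ≠ 0` (the other case is symmetric). There is a `k`-linear functional
`f : K → k` with `f α ≠ 0` (`Module.exists_dual_forall_apply_ne_zero`-type lemma, e.g.
`Module.forall_dual_apply_eq_zero_iff`). Let `Λ : A2 K → A2 k` apply `f` to the coefficients
(`Finsupp.mapRange.linearMap`, or `∑ s ∈ support, monomial s (f (coeff s g))`). Then
`Λ (map φ g * H) = g * Λ H` for `g : A2 k` (additivity and monomials: compare coefficients with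
`coeff_mul`). From `C α * map φ u + C β * map φ w = map φ F * H`:
`C (f α) * u + C (f β) * w = F * Λ H`. -/
theorem descent {k K : Type*} [Field k] [Field K] [Algebra k K] {F u w : A2 k} {α β : K}
    (h0 : α ≠ 0 ∨ β ≠ 0)
    (h : map (algebraMap k K) F ∣ C α * map (algebraMap k K) u + C β * map (algebraMap k K) w) :
    ∃ α' β' : k, (α' ≠ 0 ∨ β' ≠ 0) ∧ F ∣ C α' * u + C β' * w := by
  classical
  obtain ⟨H, hH⟩ := h
  have sm : ∀ (f : K →ₗ[k] k) (a : k) (b : K), f (algebraMap k K a * b) = a * f b := by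
    intro f a b
    rw [← Algebra.smul_def, map_smul, smul_eq_mul]
  have main : ∀ f : K →ₗ[k] k, F ∣ C (f α) * u + C (f β) * w := by
    intro f
    obtain ⟨Λ, hΛ⟩ := GDesc_coeff f
    refine ⟨Λ H, ?_⟩
    ext s
    have h1 := congrArg (fun p => f (coeff s p)) hH
    simp only [coeff_add, coeff_C_mul, coeff_map, map_add] at h1
    rw [mul_comm α, mul_comm β, sm, sm, coeff_mul, map_sum] at h1
    simp only [coeff_map] at h1
    rw [coeff_add, coeff_C_mul, coeff_C_mul, coeff_mul, mul_comm (f α), mul_comm (f β), h1]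
    refine Finset.sum_congr rfl fun x _ => ?_
    rw [sm, hΛ]
  have ex : ∀ γ : K, γ ≠ 0 → ∃ f : K →ₗ[k] k, f γ ≠ 0 := by
    intro γ hγ
    by_contra hcon
    push Not at hcon
    exact hγ ((Module.forall_dual_apply_eq_zero_iff k γ).1 hcon)
  rcases h0 with h0 | h0
  · obtain ⟨f, hf⟩ := ex α h0
    exact ⟨f α, f β, Or.inl hf, main f⟩
  · obtain ⟨f, hf⟩ := ex β h0
    exact ⟨f α, f β, Or.inr hf, main f⟩

end Pool.MP_70e04f_ag.Strip
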