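import Pool.Agent.Lib_MP_70e04f_gon.GPos

/-!
# Assembly: the strip theorem with width one seventh
-/

set_option autoImplicit false

namespace Pool.MP_70e04f_ag.Strip

open MvPolynomial

/-- The class `(∑ m i ^ 2; d * m i)`, with `X = d * m (α 9)`: see `pos_neg` in
`Lib_MP_70e04f_thin/TGen.lean`. -/
theorem pos_neg2 {n : ℕ} (d x N : ℕ) (m : Fin n → ℕ) (α : Fin 9 → Fin n)
    (hα : Function.Injective α) (hanti : Antitone (fun s => m (α s))) (hx : 1 ≤ x)
    (hx8 : x ≤ m (α 8)) (hother : ∀ i, i ∉ Set.range α → m i ≤ x)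
    (hstd : m (α 0) + m (α 1) + m (α 2) ≤ d) (hN : ∑ i, m i ^ 2 = d ^ 2 + N) (hN0 : 0 < N)
    (hthin : x ^ 2 ≤ 7 * N ∨ 5000 * x ^ 4 ≤ N * ∑ i ∈ Sm α, m i ^ 2 ∨
      15000 * x ^ 5 ≤ N ^ 2 * d) (E : ℕ) :
    ∃ B : ℕ, ∀ ℓ : ℕ, ∀ [Fact ℓ.Prime], B < ℓ → ∀ F : A2 (KK n ℓ), Irreducible F →
      F.totalDegree ≤ E → 1 ≤ dotp (∑ i, m i ^ 2) (fun i => d * m i) (gp n ℓ) F := by
  have hd : 1 ≤ d := by
    have h0 : m (α 8) ≤ m (α 0) := hanti (Fin.zero_le 8)
    omega
  have hM : ∀ T : Finset (Fin n), ∑ i ∈ T, (d * m i) ^ 2 = d ^ 2 * ∑ i ∈ T, m i ^ 2 := by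
    intro T
    rw [Finset.mul_sum]
    exact Finset.sum_congr rfl fun i _ => by ring
  have hSS : d ^ 2 ≤ ∑ i, m i ^ 2 := by omega
  refine pos_thin2 (∑ i, m i ^ 2) (d * x) ((∑ i, m i ^ 2) * N) (fun i => d * m i) α hα
    (fun a b hab => Nat.mul_le_mul_left d (hanti hab)) (Nat.mul_pos hd hx)
    (Nat.mul_le_mul_left d hx8) (fun i hi => Nat.mul_le_mul_left d (hother i hi)) ?_ ?_ ?_ ?_ E
  · calc d * m (α 0) + d * m (α 1) + d * m (α 2) = d * (m (α 0) + m (α 1) + m (α 2)) := by ring
      _ ≤ d * d := Nat.mul_le_mul_left d hstd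
      _ = d ^ 2 := by ring
      _ ≤ _ := hSS
  · rw [hM, hN]
    ring
  · exact Nat.mul_pos (by have : 1 ≤ d ^ 2 := Nat.one_le_pow _ _ hd; omega) hN0
  · rcases hthin with h | h | h
    · left
      have h1 : 1 ≤ x ^ 2 := Nat.one_le_pow _ _ hx
      calc (d * x) ^ 2 = d ^ 2 * x ^ 2 := by ring
        _ < (∑ i, m i ^ 2) * x ^ 2 := Nat.mul_lt_mul_of_pos_right (by omega) h1
        _ ≤ (∑ i, m i ^ 2) * (7 * N) := Nat.mul_le_mul_left _ h
        _ = 7 * ((∑ i, m i ^ 2) * N) := by ring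
    · right; left
      rw [hM]
      calc 5000 * (d * x) ^ 4 = d ^ 4 * (5000 * x ^ 4) := by ring
        _ ≤ d ^ 4 * (N * ∑ i ∈ Sm α, m i ^ 2) := Nat.mul_le_mul_left _ h
        _ = d ^ 2 * N * (d ^ 2 * ∑ i ∈ Sm α, m i ^ 2) := by ring
        _ ≤ (∑ i, m i ^ 2) * N * (d ^ 2 * ∑ i ∈ Sm α, m i ^ 2) :=
          Nat.mul_le_mul_right _ (Nat.mul_le_mul_right _ hSS)
    · right; right
      calc 15000 * (d * x) ^ 5 = d ^ 5 * (15000 * x ^ 5) := by ring
        _ ≤ d ^ 5 * (N ^ 2 * d) := Nat.mul_le_mul_left _ h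
        _ = (d ^ 2) ^ 3 * N ^ 2 := by ring
        _ ≤ (∑ i, m i ^ 2) ^ 3 * N ^ 2 := Nat.mul_le_mul_right _ (Nat.pow_le_pow_left hSS 3)
        _ = ((∑ i, m i ^ 2) * N) ^ 2 * ∑ i, m i ^ 2 := by ring

/-- The strip theorem with width one seventh, and the thin strip. (The small points are the ones
outside of the first nine of the ten points `α`.) -/
theorem gen_thin2 (n d D N : ℕ) (mult : Fin n → ℕ) (α : Fin 10 → Fin n)
    (hα : Function.Injective α) (hanti : Antitone (fun j => mult (α j)))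
    (h2 : 2 ≤ mult (α 9)) (hother : ∀ i, i ∉ Set.range α → mult i ≤ mult (α 9))
    (hstd : mult (α 0) + mult (α 1) + mult (α 2) ≤ d) (hN : 0 < N)
    (hbig : (∑ i with 2 ≤ mult i, (mult i + 1) ^ 2 + N = (d + 3) ^ 2 ∧
        ((mult (α 9) + 1) ^ 2 < 7 * N ∨
          5000 * (mult (α 9) + 1) ^ 4 ≤
            N * ∑ i with 2 ≤ mult i ∧ ∀ j : Fin 9, i ≠ α j.castSucc, (mult i + 1) ^ 2 ∨
          15000 * (mult (α 9) + 1) ^ 5 ≤ N ^ 2 * (d + 3))) ∨
      (∑ i, mult i ^ 2 = d ^ 2 + N ∧
        (mult (α 9) ^ 2 ≤ 7 * N ∨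
          5000 * mult (α 9) ^ 4 ≤
            N * ∑ i with ∀ j : Fin 9, i ≠ α j.castSucc, mult i ^ 2 ∨
          15000 * mult (α 9) ^ 5 ≤ N ^ 2 * d)))
    (hD : D = d ∨ D ≤ d ∧ (d + 1) * (d + 2) ≤ ∑ i, mult i * (mult i + 1)) : GExp D mult := by
  classical
  have h9 : ∀ j, mult (α 9) ≤ mult (α j) := fun j => hanti (Fin.le_last j)
  have hn : 0 < n := lt_of_le_of_lt (Nat.zero_le _) (α 0).2
  -- facts on the enumerated family
  have hfam : ∀ {r : ℕ} (ι : Fin r → Fin n) (α' : Fin 10 → Fin r), Function.Injective ι →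
      (∀ j, ι (α' j) = α j) → Antitone (fun s : Fin 9 => mult (ι (α' s.castSucc))) ∧
      mult (α 9) ≤ mult (ι (α' (8 : Fin 9).castSucc)) ∧
      (∀ i, i ∉ Set.range (fun s : Fin 9 => α' s.castSucc) → mult (ι i) ≤ mult (α 9)) ∧
      mult (ι (α' (0 : Fin 9).castSucc)) + mult (ι (α' (1 : Fin 9).castSucc)) +
        mult (ι (α' (2 : Fin 9).castSucc)) ≤ d := by
    intro r ι α' hι hια
    refine ⟨?_, ?_, ?_, ?_⟩
    · intro a b hab
      simp only [hια]
      exact hanti (Fin.castSucc_le_castSucc_iff.2 hab)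
    · rw [hια]
      exact h9 _
    · intro i hi
      by_cases h : ι i ∈ Set.range α
      · obtain ⟨j, hj⟩ := h
        rw [← hj]
        rcases Fin.eq_castSucc_or_eq_last j with ⟨j', rfl⟩ | rfl
        · exfalso
          apply hi
          refine ⟨j', hι ?_⟩
          simp only
          rw [hια, hj]
        · exact le_refl _
      · exact hother _ h
    · simp only [hια]
      exact hstd
  have key : GExp d mult := by
    rcases hbig with ⟨hb, ht⟩ | ⟨hb, ht⟩
    · obtain ⟨ι, α', hι, hr, hια, hα'⟩ := exists_enum (Finset.univ.filter (fun i => 2 ≤ mult i)) α hα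
        (fun j => by
          rw [Finset.mem_filter]
          exact ⟨Finset.mem_univ _, h2.trans (h9 j)⟩)
      obtain ⟨f1, f2, f3, f4⟩ := hfam ι α' hι hια
      have hs := sum_enum _ ι hι hr (fun i => (mult i + 1) ^ 2)
      have hs2 := TFinal_sum _ ι hι hr (fun j : Fin 9 => α j.castSucc)
        (fun j : Fin 9 => α' j.castSucc) (fun j => hια _) (fun i => (mult i + 1) ^ 2)
      rw [Finset.filter_filter] at hs2
      obtain ⟨k, _, _, p, hp, hind⟩ := ind_of_pos (α' 0).pos d (fun a => mult (ι a)) (by rw [hs]; omega)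
        (pos_thin2 (d + 3) (mult (α 9) + 1) N (fun a => mult (ι a) + 1)
          (fun s : Fin 9 => α' s.castSucc) (hα'.comp (Fin.castSucc_injective _))
          (fun a b hab => Nat.add_le_add_right (f1 hab) 1) (by omega) (Nat.add_le_add_right f2 1)
          (fun i hi => Nat.add_le_add_right (f3 i hi) 1) (by omega)
          (by rw [hs]; exact hb) hN (by rw [hs2]; exact ht))
      obtain ⟨p2, hp2⟩ := (EXP.of_ind hp hind).extend ι hι
        (fun i hi => by
          by_contra hcon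
          apply hi
          have : i ∈ (↑(Finset.univ.filter (fun i => 2 ≤ mult i)) : Set (Fin n)) := by
            rw [Finset.mem_coe, Finset.mem_filter]
            exact ⟨Finset.mem_univ _, by omega⟩
          rw [← hr] at this
          exact this)
      exact gexp_of_good d mult p2 hp2.good
    · obtain ⟨ι, α', hι, hr, hια, hα'⟩ := exists_enum (Finset.univ.filter (fun i => 1 ≤ mult i)) α hα
        (fun j => by
          rw [Finset.mem_filter]
          exact ⟨Finset.mem_univ _, by have := h9 j; omega⟩)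
      obtain ⟨f1, f2, f3, f4⟩ := hfam ι α' hι hια
      have hs := sum_enum _ ι hι hr (fun i => mult i ^ 2)
      have hs' : ∑ i ∈ Finset.univ.filter (fun i => 1 ≤ mult i), mult i ^ 2 = ∑ i, mult i ^ 2 := by
        apply Finset.sum_subset (Finset.subset_univ _)
        intro i _ hi
        rw [Finset.mem_filter] at hi
        have : mult i = 0 := by
          by_contra h0
          exact hi ⟨Finset.mem_univ _, by omega⟩
        rw [this]; rfl
      have hs2 := TFinal_sum _ ι hι hr (fun j : Fin 9 => α j.castSucc)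
        (fun j : Fin 9 => α' j.castSucc) (fun j => hια _) (fun i => mult i ^ 2)
      have hs2' : ∑ i ∈ (Finset.univ.filter (fun i => 1 ≤ mult i)).filter
          (fun i => ∀ j : Fin 9, i ≠ α j.castSucc), mult i ^ 2 =
          ∑ i with ∀ j : Fin 9, i ≠ α j.castSucc, mult i ^ 2 := by
        apply Finset.sum_subset
        · intro i hi
          rw [Finset.mem_filter] at hi ⊢
          exact ⟨Finset.mem_univ _, hi.2⟩
        · intro i hi1 hi
          rw [Finset.mem_filter] at hi1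
          rw [Finset.mem_filter, Finset.mem_filter] at hi
          have : mult i = 0 := by
            by_contra h0
            exact hi ⟨⟨Finset.mem_univ _, by omega⟩, hi1.2⟩
          rw [this]; rfl
      obtain ⟨k, _, _, p, hp, hbot⟩ := empty_of_pos (α' 0).pos d (fun a => mult (ι a))
        (fun a => by
          have : ι a ∈ (↑(Finset.univ.filter (fun i => 1 ≤ mult i)) : Set (Fin n)) := by
            rw [← hr]; exact ⟨a, rfl⟩
          rw [Finset.mem_coe, Finset.mem_filter] at this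
          exact this.2)
        (pos_neg2 d (mult (α 9)) N (fun a => mult (ι a)) (fun s : Fin 9 => α' s.castSucc)
          (hα'.comp (Fin.castSucc_injective _)) f1 (by omega) f2 f3 f4
          (by rw [hs, hs']; exact hb) hN (by rw [hs2, hs2']; exact ht) d)
      obtain ⟨p2, hp2⟩ := (EXP.of_bot hbot).extend ι hι
        (fun i hi => by
          by_contra hcon
          apply hi
          have : i ∈ (↑(Finset.univ.filter (fun i => 1 ≤ mult i)) : Set (Fin n)) := by
            rw [Finset.mem_coe, Finset.mem_filter]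
            exact ⟨Finset.mem_univ _, by omega⟩
          rw [← hr] at this
          exact this)
      exact gexp_of_good d mult p2 hp2.good
  rcases hD with rfl | ⟨h3, h4⟩
  · exact key
  · exact key.le h3 h4

end Pool.MP_70e04f_ag.Strip
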