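import Pool.Agent.Lib_MP_70e04f_gon.GInd
import Pool.Agent.Lib_MP_70e04f_strip.SGon
import Pool.Agent.Lib_MP_70e04f_strip.SSecB

/-!
# Piece GGON: two independent sections of a class of degree at most one
-/

set_option autoImplicit false

namespace Pool.MP_70e04f_ag.Strip

open MvPolynomial

/-- PROOF. As `sec_pow_ge` (`Lib_MP_70e04f_strip/SGon.lean`), with `monomials_indep2` instead of
`monomials_indep`. -/
theorem sec_pow_ge2 {k : Type} [Field k] {n : ℕ} {p : Fin n → Fin 2 → k} {F : A2 k}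
    (hG : GIrr F) (t : ℕ) (β : Fin n → ℕ) {u w : A2 k} (hu : u ∈ Pt k t) (hw : w ∈ Pt k t)
    (huβ : u ∈ Iz p β) (hwβ : w ∈ Iz p β)
    (h : ∀ α γ : k, F ∣ C α * u + C γ * w → α = 0 ∧ γ = 0) (κ : ℕ) :
    κ + 1 ≤ sec (κ * t) (Iz p (fun i => κ * β i) ⊔ pr F) F := by
  have hmem : ∀ j : Fin (κ + 1), u ^ (j : ℕ) * w ^ (κ - (j : ℕ)) ∈
      Pt k (κ * t) ⊓ sp (Iz p (fun i => κ * β i) ⊔ pr F) := by
    intro j
    have hj : (j : ℕ) + (κ - (j : ℕ)) = κ := by have := j.2; omega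
    refine ⟨?_, ?_⟩
    · have h3 := mul_mem_Pt (SGon_pow_Pt hu (j : ℕ)) (SGon_pow_Pt hw (κ - (j : ℕ)))
      rwa [← add_mul, hj] at h3
    · refine Ideal.mem_sup_left ?_
      have h3 := Iz_mul_mem (SGon_pow_Iz huβ (j : ℕ)) (SGon_pow_Iz hwβ (κ - (j : ℕ)))
      have he : (fun i => (j : ℕ) * β i + (κ - (j : ℕ)) * β i) = fun i => κ * β i := by
        funext i; rw [← add_mul, hj]
      rwa [he] at h3
  unfold sec
  have hfin : Module.Finite k ↥(Pt k (κ * t) ⊓ sp (Iz p (fun i => κ * β i) ⊔ pr F)) :=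
    Submodule.finiteDimensional_inf_left _ _
  let v : Fin (κ + 1) →
      ↥((Pt k (κ * t) ⊓ sp (Iz p (fun i => κ * β i) ⊔ pr F)).map (sp (pr F)).mkQ) := fun j =>
    ⟨(sp (pr F)).mkQ (u ^ (j : ℕ) * w ^ (κ - (j : ℕ))), Submodule.mem_map_of_mem (hmem j)⟩
  have hv : LinearIndependent k v := by
    rw [Fintype.linearIndependent_iff]
    intro g hg j
    set c : ℕ → k := fun a => if h' : a < κ + 1 then g ⟨a, h'⟩ else 0 with hc
    have hcj : ∀ i : Fin (κ + 1), c (i : ℕ) = g i := by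
      intro i
      show (if h' : (i : ℕ) < κ + 1 then g ⟨i, h'⟩ else 0) = g i
      rw [dif_pos i.2]
    have h3 := congrArg Subtype.val hg
    rw [Submodule.coe_sum] at h3
    have h4 : (sp (pr F)).mkQ (∑ i : Fin (κ + 1), C (g i) * (u ^ (i : ℕ) * w ^ (κ - (i : ℕ))))
        = 0 := by
      have h4' : (sp (pr F)).mkQ (∑ i : Fin (κ + 1), C (g i) * (u ^ (i : ℕ) * w ^ (κ - (i : ℕ))))
          = ∑ i, ((g i • v i : ↥((Pt k (κ * t) ⊓ sp (Iz p (fun i => κ * β i) ⊔ pr F)).map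
            (sp (pr F)).mkQ)) : A2 k ⧸ sp (pr F)) := by
        rw [map_sum]
        refine Finset.sum_congr rfl fun i _ => ?_
        rw [← smul_eq_C_mul, map_smul]
        rfl
      rw [h4', h3]
      rfl
    have h5 : F ∣ ∑ a ∈ Finset.range (κ + 1), C (c a) * (u ^ a * w ^ (κ - a)) := by
      rw [Finset.sum_range]
      simp_rw [hcj]
      rw [Submodule.mkQ_apply, Submodule.Quotient.mk_eq_zero] at h4
      exact mem_pr.1 h4
    rw [← hcj j]
    exact monomials_indep2 hG h κ c h5 _ (Finset.mem_range.2 j.2)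
  have h6 := hv.fintype_card_le_finrank
  rwa [Fintype.card_fin] at h6

/-- PROOF. `sec_pow_ge2` and `sec_le` for `(κ t; κ β)`: `κ + 1 ≤ max 0 (κ * 0 + deg F) = deg F` for all
`κ`. -/
theorem gon_zero {k : Type} [Field k] [Infinite k] {n : ℕ} {p : Fin n → Fin 2 → k}
    (hp : Function.Injective p) {F : A2 k} (hF : Irreducible F) (hG : GIrr F) (t : ℕ)
    (β : Fin n → ℕ) (hδ : dotp t β p F = 0) {u w : A2 k} (hu : u ∈ Pt k t) (hw : w ∈ Pt k t)
    (huβ : u ∈ Iz p β) (hwβ : w ∈ Iz p β)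
    (h : ∀ α γ : k, F ∣ C α * u + C γ * w → α = 0 ∧ γ = 0) : False := by
  have hsec := sec_pow_ge2 hG t β hu hw huβ hwβ h F.totalDegree
  have hle := sec_le hp hF (fun i => F.totalDegree * β i) (F.totalDegree * t)
  have hdot : ((F.totalDegree * t : ℕ) : ℤ) * F.totalDegree -
      ∑ i, (mu (p i) F : ℤ) * ((F.totalDegree * β i : ℕ) : ℤ) = 0 := by
    have h3 : ((F.totalDegree * t : ℕ) : ℤ) * F.totalDegree -
        ∑ i, (mu (p i) F : ℤ) * ((F.totalDegree * β i : ℕ) : ℤ)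
        = F.totalDegree * dotp t β p F := by
      unfold dotp
      rw [mul_sub, Finset.mul_sum]
      congr 1
      · push_cast; ring
      · refine Finset.sum_congr rfl fun i _ => ?_
        push_cast; ring
    rw [h3, hδ, mul_zero]
  rw [hdot, zero_add, max_eq_right (Int.natCast_nonneg _)] at hle
  have hsec' : ((F.totalDegree : ℤ) + 1) ≤
      (sec (F.totalDegree * t) (Iz p (fun i => F.totalDegree * β i) ⊔ pr F) F : ℤ) := by
    exact_mod_cast hsec
  omega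

/-- PROOF. As `gon` (`Lib_MP_70e04f_strip/SGon.lean`), with `sec_pow_ge2`. -/
theorem gon_one {k : Type} [Field k] [Infinite k] {n : ℕ} {p : Fin n → Fin 2 → k}
    (hp : Function.Injective p) {F : A2 k} (hF : Irreducible F) (hG : GIrr F) (t : ℕ)
    (β : Fin n → ℕ) (hβ : ∀ i, mu (p i) F ≤ β i + 1) (hδ : dotp t β p F = 1) {u w : A2 k}
    (hu : u ∈ Pt k t) (hw : w ∈ Pt k t) (huβ : u ∈ Iz p β) (hwβ : w ∈ Iz p β)
    (h : ∀ α γ : k, F ∣ C α * u + C γ * w → α = 0 ∧ γ = 0) :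
    (F.totalDegree : ℤ) * (F.totalDegree - 3) <
      ∑ i, (mu (p i) F : ℤ) * ((mu (p i) F : ℤ) - 1) := by
  obtain ⟨J, hJ⟩ := curve_van n t F.totalDegree 0 β
  have ht1 : 1 ≤ t := by
    by_contra ht
    have ht0 : t = 0 := by omega
    unfold dotp at hδ
    rw [ht0, Nat.cast_zero, zero_mul] at hδ
    have : 0 ≤ ∑ i, (β i : ℤ) * mu (p i) F := Finset.sum_nonneg fun i _ => by positivity
    omega
  obtain ⟨κ, hκ⟩ : ∃ κ, κ = max J (F.totalDegree + 1) := ⟨_, rfl⟩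
  have hκJ : J ≤ κ := hκ ▸ le_max_left _ _
  have hκe : F.totalDegree + 1 ≤ κ := hκ ▸ le_max_right _ _
  have hind : Ind (κ * t) (Iz p (fun i => κ * β i) ⊔ pr F) :=
    hJ k p hp F hF le_rfl (fun i hi => by have := hβ i; omega) (by rw [hδ]) κ (κ * t)
      (fun i => κ * β i) hκJ le_rfl le_rfl (fun _ => le_rfl) (fun _ => le_rfl)
  have hfin : FinC (Iz p (fun i => κ * β i) ⊔ pr F) := (finC_Iz hp _).mono le_sup_left
  have hcod : cod (κ * t) (Iz p (fun i => κ * β i) ⊔ pr F) = 0 := (hfin.cod_eq_zero _).2 hind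
  have hdeg : F.totalDegree ≤ κ * t := by
    calc F.totalDegree ≤ κ * 1 := by omega
      _ ≤ κ * t := Nat.mul_le_mul_left _ ht1
  have hβ' : ∀ i, mu (p i) F ≤ κ * β i + 1 := by
    intro i
    rcases Nat.eq_zero_or_pos (β i) with h0 | h0
    · have := hβ i
      rw [h0] at this ⊢
      simpa using this
    · have h3 : mu (p i) F ≤ F.totalDegree := mu_le_deg hF.ne_zero
      have h4 : κ * 1 ≤ κ * β i := Nat.mul_le_mul_left _ h0
      omega
  have hrr := rr hp hF.ne_zero (fun i => κ * β i) hβ' hdeg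
  rw [hcod] at hrr
  have hsec := sec_pow_ge2 hG t β hu hw huβ hwβ h κ
  have hdot : ((κ * t : ℕ) : ℤ) * F.totalDegree - ∑ i, (mu (p i) F : ℤ) * ((κ * β i : ℕ) : ℤ)
      = κ := by
    have h3 : ((κ * t : ℕ) : ℤ) * F.totalDegree - ∑ i, (mu (p i) F : ℤ) * ((κ * β i : ℕ) : ℤ)
        = κ * dotp t β p F := by
      unfold dotp
      rw [mul_sub, Finset.mul_sum]
      congr 1
      · push_cast; ring
      · refine Finset.sum_congr rfl fun i _ => ?_
        push_cast; ring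
    rw [h3, hδ, mul_one]
  rw [hdot] at hrr
  have hsec' : ((κ : ℤ) + 1) ≤ (sec (κ * t) (Iz p (fun i => κ * β i) ⊔ pr F) F : ℤ) := by
    exact_mod_cast hsec
  push_cast at hrr
  linarith

end Pool.MP_70e04f_ag.Strip
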