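import Pool.Agent.Lib_MP_70e04f_gon.GBin
import Pool.Agent.Lib_MP_70e04f_gon.GDesc

/-!
# Piece GIND: independence of the monomials in two independent sections
-/

set_option autoImplicit false

namespace Pool.MP_70e04f_ag.Strip

open MvPolynomial

/-- PROOF. Suppose that `c a ≠ 0` for some `a ≤ κ`. Apply `map (algebraMap k K)`,
`K = AlgebraicClosure k`, to the divisibility: `prime_dvd_form` (`A = A2 K`, the prime `map _ F`,
`hG.prime`) and `descent` give `α, β ∈ k`, not both zero, with `F ∣ C α * u + C β * w`. -/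
theorem monomials_indep2 {k : Type} [Field k] {F u w : A2 k} (hG : GIrr F)
    (h : ∀ α β : k, F ∣ C α * u + C β * w → α = 0 ∧ β = 0) (κ : ℕ) (c : ℕ → k)
    (hc : F ∣ ∑ a ∈ Finset.range (κ + 1), C (c a) * (u ^ a * w ^ (κ - a))) :
    ∀ a ∈ Finset.range (κ + 1), c a = 0 := by
  by_contra hcon
  push Not at hcon
  obtain ⟨a0, ha0, hca⟩ := hcon
  have h1 := map_dvd (MvPolynomial.map (algebraMap k (AlgebraicClosure k))) hc
  rw [map_sum] at h1
  have h2 : MvPolynomial.map (algebraMap k (AlgebraicClosure k)) F ∣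
      ∑ a ∈ Finset.range (κ + 1), algebraMap (AlgebraicClosure k) (A2 (AlgebraicClosure k))
        (algebraMap k (AlgebraicClosure k) (c a)) *
        (MvPolynomial.map (algebraMap k (AlgebraicClosure k)) u ^ a *
          MvPolynomial.map (algebraMap k (AlgebraicClosure k)) w ^ (κ - a)) := by
    refine h1.trans (dvd_of_eq ?_)
    refine Finset.sum_congr rfl fun a _ => ?_
    rw [map_mul, map_mul, map_pow, map_pow, map_C]
    rfl
  obtain ⟨α, β, h0, h3⟩ := prime_dvd_form hG.prime _ _ κ
    (fun a => algebraMap k (AlgebraicClosure k) (c a))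
    ⟨a0, ha0, fun h => hca ((algebraMap k (AlgebraicClosure k)).injective (by rw [h, map_zero]))⟩ h2
  obtain ⟨α', β', h4, h5⟩ := descent h0 h3
  obtain ⟨h6, h7⟩ := h α' β' h5
  rcases h4 with h4 | h4
  · exact h4 h6
  · exact h4 h7

end Pool.MP_70e04f_ag.Strip
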