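import Pool.Agent.Lib_MP_70e04f_gon.GMap

/-!
# Piece GIRRM: a minimal curve is geometrically irreducible
-/

set_option autoImplicit false

namespace Pool.MP_70e04f_ag.Strip

open MvPolynomial

private theorem GIrrM_deg {k K : Type*} [Field k] [Field K] (φ : k →+* K) (F : A2 k) :
    (MvPolynomial.map φ F).totalDegree = F.totalDegree := by
  unfold MvPolynomial.totalDegree
  rw [MvPolynomial.support_map_of_injective F φ.injective]

private theorem GIrrM_dotp {k K : Type*} [Field k] [Field K] (φ : k →+* K) {n : ℕ} (D : ℕ)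
    (M : Fin n → ℕ) (p : Fin n → Fin 2 → k) (F : A2 k) :
    dotp D M (fun i c => φ (p i c)) (MvPolynomial.map φ F) = dotp D M p F := by
  unfold dotp
  rw [GIrrM_deg φ F]
  congr 1
  apply Finset.sum_congr rfl
  intro i _
  rw [mu_map φ (p i) F]

/-- PROOF. Let `K` be the algebraic closure, `φ = algebraMap`, `F' = map φ F`, of degree `e = deg F ≥ 1`
(`φ` injective), `p' i c = φ (gp i c)`. `dotp D M p' F' = dotp D M gp F ≤ 0` (`mu_map`), so `exists_factor`
gives an irreducible `G ∣ F'` with `dotp D M p' G ≤ 0`; let `e1 = deg G ≤ e`, `b i = mu (p' i) G`. Suppose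
`e1 < e`. `G` shows that `(e1; b)` is effective over `K` (`mem_iff_le_mu`), by `eff_desc` it is effective over
`KK n ℓ`; `D * e1 ≤ ∑ M b` and `D * e1 ≥ 1` (`e1 ≥ 1`: `spos_deg`), so some `b i0 ≥ 1` and
`exists_component` gives an irreducible curve of degree `≤ e1 < e` with `dotp ≤ 0`: contradiction to `hmin`.
So `e1 = e`, `F' = G * H` with `H` constant, and `F'` is irreducible. -/
theorem girr_min {n ℓ : ℕ} [Fact ℓ.Prime] (D : ℕ) (hD : 0 < D) (M : Fin n → ℕ)
    {F : A2 (KK n ℓ)} (hF : Irreducible F) (hdot : dotp D M (gp n ℓ) F ≤ 0)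
    (hmin : ∀ F' : A2 (KK n ℓ), Irreducible F' → F'.totalDegree < F.totalDegree →
      1 ≤ dotp D M (gp n ℓ) F') : GIrr F := by
  unfold GIrr
  set φ : KK n ℓ →+* AlgebraicClosure (KK n ℓ) := algebraMap _ _ with hφ
  have hF0 : F ≠ 0 := hF.ne_zero
  have hF1 : 1 ≤ F.totalDegree := spos_deg hF
  have hF'0 : MvPolynomial.map φ F ≠ 0 := by
    intro h
    apply hF0
    apply MvPolynomial.map_injective φ φ.injective
    rw [h, map_zero]
  have hdeg : (MvPolynomial.map φ F).totalDegree = F.totalDegree := GIrrM_deg φ F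
  obtain ⟨G, hG, hGF, hGd⟩ := exists_factor D M (fun i c => φ (gp n ℓ i c)) hF'0
    (by rw [hdeg]; exact hF1) (by rw [GIrrM_dotp]; exact hdot)
  obtain ⟨H, hH⟩ := hGF
  have hG0 : G ≠ 0 := hG.ne_zero
  have hH0 : H ≠ 0 := by
    rintro rfl
    rw [mul_zero] at hH
    exact hF'0 hH
  have hsum : F.totalDegree = G.totalDegree + H.totalDegree := by
    rw [← hdeg, hH, totalDegree_mul_of_isDomain hG0 hH0]
  have hG1 : 1 ≤ G.totalDegree := spos_deg hG
  by_cases hlt : G.totalDegree < F.totalDegree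
  · exfalso
    obtain ⟨f, hf0, hfe, hfa⟩ := eff_desc φ (gp n ℓ) G.totalDegree
      (fun i => mu (fun c => φ (gp n ℓ i c)) G)
      ⟨G, hG0, mem_Pt.2 le_rfl, mem_Iz.2 fun i => (mem_iff_le_mu hG0 _).2 le_rfl⟩
    have hNF : D * G.totalDegree ≤ ∑ i, M i * mu (fun c => φ (gp n ℓ i c)) G := by
      unfold dotp at hGd
      have h1 : ((D * G.totalDegree : ℕ) : ℤ) ≤
          ((∑ i, M i * mu (fun c => φ (gp n ℓ i c)) G : ℕ) : ℤ) := by
        push_cast
        linarith
      exact_mod_cast h1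
    have hpos : 0 < ∑ i, M i * mu (fun c => φ (gp n ℓ i c)) G :=
      lt_of_lt_of_le (Nat.mul_pos hD hG1) hNF
    obtain ⟨i0, -, hi0⟩ := Finset.exists_ne_zero_of_sum_ne_zero hpos.ne'
    have hb : 1 ≤ mu (fun c => φ (gp n ℓ i0 c)) G :=
      Nat.one_le_iff_ne_zero.2 (right_ne_zero_of_mul hi0)
    obtain ⟨F1, hF1i, hF1d, hF1n⟩ := exists_component D M (gp n ℓ) G.totalDegree
      (fun i => mu (fun c => φ (gp n ℓ i c)) G) hNF hf0 hfe hfa i0 hb
    have := hmin F1 hF1i (lt_of_le_of_lt hF1d hlt)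
    omega
  · have hH1 : H.totalDegree = 0 := by omega
    have hHu : IsUnit H := by
      rw [totalDegree_eq_zero_iff_eq_C] at hH1
      rw [hH1]
      have hc : coeff 0 H ≠ 0 := by
        intro h
        rw [h, map_zero] at hH1
        exact hH0 hH1
      exact (Ne.isUnit hc).map C
    rw [hH]
    exact (irreducible_mul_isUnit hHu).2 hG

end Pool.MP_70e04f_ag.Strip
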