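import Pool.Agent.Lib_MP_70e04f_gon.GDefs

/-!
# Piece GMAP: extension of the base field
-/

set_option autoImplicit false

namespace Pool.MP_70e04f_ag.Strip

open MvPolynomial

private theorem GMap_shift_C {R : Type*} [CommRing R] (q : Fin 2 → R) (r : R) :
    shift q (C r) = C r := by
  unfold shift
  rw [aeval_C]
  rfl

private theorem GMap_map_shift {R S : Type*} [CommRing R] [CommRing S] (φ : R →+* S) (q : Fin 2 → R)
    (f : MvPolynomial (Fin 2) R) :
    map φ (shift q f) = shift (fun c => φ (q c)) (map φ f) := by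
  induction f using MvPolynomial.induction_on with
  | C a => rw [GMap_shift_C, map_C, GMap_shift_C]
  | add p q hp hq => simp only [map_add, hp, hq]
  | mul_X p i hp =>
    rw [map_mul, map_mul, hp, map_mul, map_mul, map_X]
    congr 1
    unfold shift
    rw [aeval_X, aeval_X, map_add, map_X, map_C]

/-- PROOF. `map φ F ∈ mp (φ q) ^ a ↔ F ∈ mp q ^ a` for all `a`, by `mem_mp_pow` (`shift` commutes with
`map`, see `SDer_map_shift`; `φ` is injective). So the two sets in the definition of `mu` are equal. -/
theorem mu_map {k K : Type*} [Field k] [Field K] (φ : k →+* K) (q : Fin 2 → k) (F : A2 k) :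
    mu (fun c => φ (q c)) (map φ F) = mu q F := by
  unfold mu
  congr 1
  ext a
  simp only [Set.mem_ofPred_eq]
  rw [mem_mp_pow, mem_mp_pow, ← GMap_map_shift]
  constructor
  · intro h u v huv
    have h1 := h u v huv
    rw [coeff_map] at h1
    exact (map_eq_zero φ).1 h1
  · intro h u v huv
    rw [coeff_map, h u v huv, map_zero]

/-- A class which is effective over a larger field is effective.
PROOF. `no_curve_iff` over both fields: the minors over `K` are the images of the minors over `k`
(`condMat_map`, `RingHom.map_det`, `Matrix.submatrix_map`), and `φ` is injective. -/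
theorem eff_desc {k K : Type*} [Field k] [Field K] (φ : k →+* K) {n : ℕ} (p : Fin n → Fin 2 → k)
    (e : ℕ) (a : Fin n → ℕ)
    (h : ∃ f : A2 K, f ≠ 0 ∧ f ∈ Pt K e ∧ f ∈ Iz (fun i c => φ (p i c)) a) :
    ∃ f : A2 k, f ≠ 0 ∧ f ∈ Pt k e ∧ f ∈ Iz p a := by
  by_contra hn
  obtain ⟨f, hf⟩ := (no_curve_iff e a p).1 hn
  have h1 := (no_curve_iff e a (fun i c => φ (p i c))).2
  refine h1 ⟨f, ?_⟩ h
  rw [← condMat_map, Matrix.submatrix_map]
  have h2 := RingHom.map_det φ ((condMat (e + 1) a p).submatrix f id)
  rw [RingHom.mapMatrix_apply] at h2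
  rw [← h2]
  intro h3
  exact hf ((map_eq_zero φ).1 h3)

/-- PROOF. Induction on the factorization (compare `dotp_pos` in `Lib_MP_70e04f_strip/SIndA.lean`): if all
irreducible factors of `H` have `dotp ≥ 1` then `dotp H ≥ 0`, and `≥ 1` if `deg H ≥ 1`. -/
theorem exists_factor {k : Type*} [Field k] {n : ℕ} (D : ℕ) (M : Fin n → ℕ)
    (p : Fin n → Fin 2 → k) {H : A2 k} (hH : H ≠ 0) (h1 : 1 ≤ H.totalDegree)
    (hdot : dotp D M p H ≤ 0) : ∃ G : A2 k, Irreducible G ∧ G ∣ H ∧ dotp D M p G ≤ 0 := by
  by_contra hcon
  push Not at hcon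
  have key : ∀ G : A2 k, G ≠ 0 → G ∣ H →
      0 ≤ dotp D M p G ∧ (1 ≤ G.totalDegree → 1 ≤ dotp D M p G) := by
    intro G
    induction G using WfDvdMonoid.induction_on_irreducible with
    | zero => intro h0; exact absurd rfl h0
    | unit u hu =>
      intro _ _
      obtain ⟨c, hc, rfl⟩ := isUnit_iff_eq_C_of_isReduced.1 hu
      have hc0 : c ≠ 0 := hc.ne_zero
      constructor
      · unfold dotp
        simp only [totalDegree_C, mu_C hc0]
        simp
      · intro h2
        rw [totalDegree_C] at h2
        omega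
    | mul a i ha hi iha =>
      intro _ hdvd
      have hi0 : i ≠ 0 := hi.ne_zero
      have hd : (i * a).totalDegree = i.totalDegree + a.totalDegree :=
        totalDegree_mul_of_isDomain hi0 ha
      have h2 := (iha ha ((dvd_mul_left a i).trans hdvd)).1
      have h3 := hcon i hi ((dvd_mul_right i a).trans hdvd)
      have h4 : dotp D M p (i * a) = dotp D M p i + dotp D M p a := by
        unfold dotp
        rw [hd]
        have h5 : ∀ j, (M j : ℤ) * mu (p j) (i * a)
            = (M j : ℤ) * mu (p j) i + (M j : ℤ) * mu (p j) a := by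
          intro j
          rw [mu_mul hi0 ha]
          push_cast
          ring
        rw [Finset.sum_congr rfl fun j _ => h5 j, Finset.sum_add_distrib]
        push_cast
        ring
      rw [h4]
      exact ⟨by omega, fun _ => by omega⟩
  have h2 := (key H hH dvd_rfl).2 h1
  omega

end Pool.MP_70e04f_ag.Strip
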