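import Pool.Agent.Lib_MP_70e04f_gon.GReal

/-!
# Piece GREALB: real inequalities for the thin strip
-/

set_option autoImplicit false

namespace Pool.MP_70e04f_ag.Strip

/-- PROOF. By `real_four`, `a T ≥ 5000 x ^ 4 ≥ 3150 a m ^ 3`, so `T ≥ 3150 m ^ 3`. `q - a ≤ q ≤ m`, so
`√(q - a) ≤ √m`. If `A < 3110 m ^ 3` then `√T ≤ √(3110 m ^ 3) + √m`; squaring,
`3150 m ^ 3 ≤ 3110 m ^ 3 + 2 √3110 m ^ 2 + m ≤ (3110 + 37.2 + 0.12) m ^ 3` (`√(m ^ 3) √m = m ^ 2`, `√3110 < 55.77`,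
`m ≥ 3`): contradiction. -/
theorem real_thin (m : ℕ) (q x y a T A : ℝ) (hm : 3 ≤ m) (hy : 0 ≤ y) (hyx : y ≤ x) (ha : 0 < a)
    (h : (m - y) ^ 2 + a ≤ q) (hq : q ≤ m - 2 ∨ (q ≤ m - 1 ∧ 7 ≤ m)) (hA : 0 ≤ A) (hT : 0 ≤ T)
    (hC : 5000 * x ^ 4 ≤ a * T) (h2 : Real.sqrt T ≤ Real.sqrt A + Real.sqrt (q - a)) :
    3110 * (m : ℝ) ^ 3 ≤ A := by
  have hm3 : (3 : ℝ) ≤ (m : ℝ) := by exact_mod_cast hm
  have hm0 : (0 : ℝ) < (m : ℝ) := by linarith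
  have hqm : q ≤ m := by
    rcases hq with h1 | h1
    · linarith
    · linarith [h1.1]
  have hf := real_four m q x y a hm hy hyx ha h hq
  have hT1 : 3150 * (m : ℝ) ^ 3 ≤ T := by
    have h1 : a * (3150 * (m : ℝ) ^ 3) ≤ a * T := by
      calc a * (3150 * (m : ℝ) ^ 3) = 5000 * (63 / 100 * a * (m : ℝ) ^ 3) := by ring
        _ ≤ 5000 * x ^ 4 := by linarith
        _ ≤ a * T := hC
    exact le_of_mul_le_mul_left h1 ha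
  by_contra hcon
  push Not at hcon
  obtain ⟨s, hs⟩ : ∃ s, s = Real.sqrt A := ⟨_, rfl⟩
  obtain ⟨u, hu⟩ : ∃ u, u = Real.sqrt (q - a) := ⟨_, rfl⟩
  obtain ⟨v, hv⟩ : ∃ v, v = Real.sqrt T := ⟨_, rfl⟩
  rw [← hs, ← hu, ← hv] at h2
  have hs0 : 0 ≤ s := hs ▸ Real.sqrt_nonneg A
  have hu0 : 0 ≤ u := hu ▸ Real.sqrt_nonneg (q - a)
  have hv0 : 0 ≤ v := hv ▸ Real.sqrt_nonneg T
  have hs2 : s ^ 2 = A := by rw [hs]; exact Real.sq_sqrt hA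
  have hv2 : v ^ 2 = T := by rw [hv]; exact Real.sq_sqrt hT
  have hu2 : u ^ 2 ≤ m := by
    rcases le_total 0 (q - a) with h1 | h1
    · rw [hu, Real.sq_sqrt h1]; linarith
    · rw [hu, Real.sqrt_eq_zero_of_nonpos h1]
      have : (0 : ℝ) ^ 2 = 0 := by norm_num
      rw [this]; exact hm0.le
  have hsu : s * u ≤ 5577 / 100 * (m : ℝ) ^ 2 := by
    by_contra hc2
    push Not at hc2
    have h3 : (5577 / 100 * (m : ℝ) ^ 2) ^ 2 < (s * u) ^ 2 := pow_lt_pow_left₀ hc2 (by positivity) (by norm_num)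
    have h4 : (s * u) ^ 2 ≤ 3110 * (m : ℝ) ^ 3 * m := by
      calc (s * u) ^ 2 = s ^ 2 * u ^ 2 := by ring
        _ ≤ 3110 * (m : ℝ) ^ 3 * m := by
            rw [hs2]
            exact mul_le_mul hcon.le hu2 (sq_nonneg u) (by positivity)
    have h5 : (0 : ℝ) < (m : ℝ) ^ 4 := by positivity
    nlinarith
  have h6 : v ^ 2 ≤ (s + u) ^ 2 := pow_le_pow_left₀ hv0 h2 2
  have h7 : T ≤ 3110 * (m : ℝ) ^ 3 + 2 * (5577 / 100 * (m : ℝ) ^ 2) + m := by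
    calc T = v ^ 2 := hv2.symm
      _ ≤ (s + u) ^ 2 := h6
      _ = s ^ 2 + 2 * (s * u) + u ^ 2 := by ring
      _ ≤ 3110 * (m : ℝ) ^ 3 + 2 * (5577 / 100 * (m : ℝ) ^ 2) + m := by
          rw [hs2]; linarith
  have h8 : (3 : ℝ) * (m : ℝ) ^ 2 ≤ (m : ℝ) ^ 3 := by
    have : (0 : ℝ) ≤ (m : ℝ) ^ 2 := sq_nonneg _
    nlinarith
  have h9 : (9 : ℝ) * m ≤ (m : ℝ) ^ 3 := by nlinarith
  linarith

/-- PROOF. `x ≥ a`: with `t = m - y`, `x ≥ y = m - t ≥ m - 1 - t ^ 2 ≥ a` (`t ^ 2 - t + 1 ≥ 0`, `q ≤ m - 1`). By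
`real_four` `a ^ 2 E ≥ 15000 x ^ 5 ≥ 9450 a m ^ 3 x ≥ 9450 a ^ 2 m ^ 3`. -/
theorem real_deg (m : ℕ) (q x y a E : ℝ) (hm : 3 ≤ m) (hy : 0 ≤ y) (hyx : y ≤ x) (ha : 0 < a)
    (h : (m - y) ^ 2 + a ≤ q) (hq : q ≤ m - 2 ∨ (q ≤ m - 1 ∧ 7 ≤ m))
    (hC : 15000 * x ^ 5 ≤ a ^ 2 * E) : 9400 * (m : ℝ) ^ 3 ≤ E := by
  have hm3 : (3 : ℝ) ≤ (m : ℝ) := by exact_mod_cast hm
  have hm0 : (0 : ℝ) < (m : ℝ) := by linarith
  have hqm : q ≤ m - 1 := by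
    rcases hq with h1 | h1
    · linarith
    · exact h1.1
  have hf := real_four m q x y a hm hy hyx ha h hq
  have hxa : a ≤ x := by nlinarith [sq_nonneg (2 * (m - y) - 1)]
  have hx0 : 0 ≤ x := hy.trans hyx
  have h1 : a ^ 2 * (9400 * (m : ℝ) ^ 3) ≤ a ^ 2 * E := by
    have hm3' : (0 : ℝ) ≤ (m : ℝ) ^ 3 := by positivity
    calc a ^ 2 * (9400 * (m : ℝ) ^ 3) ≤ a ^ 2 * (9450 * (m : ℝ) ^ 3) := by
            apply mul_le_mul_of_nonneg_left _ (sq_nonneg a)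
            linarith
      _ = (9450 * a * (m : ℝ) ^ 3) * a := by ring
      _ ≤ (9450 * a * (m : ℝ) ^ 3) * x := mul_le_mul_of_nonneg_left hxa (by positivity)
      _ = 15000 * (63 / 100 * a * (m : ℝ) ^ 3) * x := by ring
      _ ≤ 15000 * x ^ 4 * x := by
            apply mul_le_mul_of_nonneg_right _ hx0
            linarith
      _ = 15000 * x ^ 5 := by ring
      _ ≤ a ^ 2 * E := hC
  exact le_of_mul_le_mul_left h1 (by positivity)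

end Pool.MP_70e04f_ag.Strip
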