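import Pool.Agent.Lib_MP_70e04f_gon.GDefs
import Pool.Agent.Lib_MP_70e04f_gon.GRealB

/-!
# Piece GNUM: curves which are not positive have many small points or large degree
-/

set_option autoImplicit false

namespace Pool.MP_70e04f_ag.Strip

/-- PROOF. As `close_norm` (`Lib_MP_70e04f_thin/TNumA.lean`), keeping the term `l ^ 2 ν` of `close`. -/
theorem close_norm2 {n : ℕ} (e D ν q : ℕ) (a M : Fin n → ℕ) (hD : 0 < D)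
    (hν : ∑ i, M i ^ 2 + ν = D ^ 2) (hq : ∑ i, a i ^ 2 = e ^ 2 + q)
    (hNF : D * e ≤ ∑ i, M i * a i) (T : Finset (Fin n)) :
    (e : ℝ) / D * Real.sqrt (∑ i ∈ T, (M i : ℝ) ^ 2) ≤
      Real.sqrt (∑ i ∈ T, (a i : ℝ) ^ 2) + Real.sqrt (q - ((e : ℝ) / D) ^ 2 * ν) := by
  have h1 := close e D ν q a M hD hν hq hNF
  obtain ⟨l, hl⟩ : ∃ l : ℝ, l = (e : ℝ) / D := ⟨_, rfl⟩
  have hl0 : 0 ≤ l := by rw [hl]; positivity
  rw [← hl] at h1 ⊢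
  have h2 : ∑ i ∈ T, (l * M i - a i) ^ 2 ≤ ∑ i, (l * M i - a i) ^ 2 :=
    Finset.sum_le_sum_of_subset_of_nonneg (Finset.subset_univ T) (fun _ _ _ => sq_nonneg _)
  set A : ℝ := ∑ i ∈ T, (a i : ℝ) ^ 2 with hA
  set C : ℝ := ∑ i ∈ T, (l * M i - a i) ^ 2 with hC
  have hA0 : 0 ≤ A := Finset.sum_nonneg fun i _ => sq_nonneg _
  have hC0 : 0 ≤ C := Finset.sum_nonneg fun i _ => sq_nonneg _
  have hCq : Real.sqrt C ≤ Real.sqrt (q - l ^ 2 * ν) := Real.sqrt_le_sqrt (by linarith)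
  have hcs : ∑ i ∈ T, (a i : ℝ) * (l * M i - a i) ≤ Real.sqrt A * Real.sqrt C :=
    Real.sum_mul_le_sqrt_mul_sqrt T _ _
  have h4 : l ^ 2 * ∑ i ∈ T, (M i : ℝ) ^ 2 =
      A + 2 * ∑ i ∈ T, (a i : ℝ) * (l * M i - a i) + C := by
    rw [hA, hC, Finset.mul_sum, Finset.mul_sum, ← Finset.sum_add_distrib,
      ← Finset.sum_add_distrib]
    exact Finset.sum_congr rfl fun i _ => by ring
  have h5 : l * Real.sqrt (∑ i ∈ T, (M i : ℝ) ^ 2) =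
      Real.sqrt (l ^ 2 * ∑ i ∈ T, (M i : ℝ) ^ 2) := by
    rw [Real.sqrt_mul (sq_nonneg l), Real.sqrt_sq hl0]
  rw [h5]
  have h6 : l ^ 2 * ∑ i ∈ T, (M i : ℝ) ^ 2 ≤ (Real.sqrt A + Real.sqrt C) ^ 2 := by
    rw [h4, add_sq, Real.sq_sqrt hA0, Real.sq_sqrt hC0]
    linarith
  have h7 : Real.sqrt (l ^ 2 * ∑ i ∈ T, (M i : ℝ) ^ 2) ≤ Real.sqrt A + Real.sqrt C :=
    Real.sqrt_le_iff.2 ⟨by positivity, h6⟩
  linarith

/-- PROOF. `D > 0` since `ν > 0`. Let `l = e / D`, `x = l X`, `y = l M i0 ≤ x`, `A = l ^ 2 ν > 0` (`e ≥ 1`).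
`close` gives `(m - y) ^ 2 + A ≤ q`. (1) `X ^ 2 < 7 ν`: `x ^ 2 < 7 A` (`l > 0`), `real_seven`: contradiction.
(2) `5000 X ^ 4 ≤ ν S`: multiply by `l ^ 4`, `5000 x ^ 4 ≤ A T`, `T = l ^ 2 S`, `√T = l √S`; `close_norm2` for
`Sm α`, `real_thin`. (3) `15000 X ^ 5 ≤ ν ^ 2 D`: multiply by `l ^ 5`, `15000 x ^ 5 ≤ A ^ 2 e`; `real_deg`.
Compare `thin_num` (`Lib_MP_70e04f_thin/TNum.lean`). -/
theorem thin_num2 {n : ℕ} (e D X ν m q : ℕ) (a M : Fin n → ℕ) (α : Fin 9 → Fin n) (he : 1 ≤ e)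
    (hX : 1 ≤ X) (hother : ∀ i ∈ Sm α, M i ≤ X) (hν : ∑ i, M i ^ 2 + ν = D ^ 2) (hν0 : 0 < ν)
    (hthin : X ^ 2 < 7 * ν ∨ 5000 * X ^ 4 ≤ ν * ∑ i ∈ Sm α, M i ^ 2 ∨
      15000 * X ^ 5 ≤ ν ^ 2 * D)
    (hq : ∑ i, a i ^ 2 = e ^ 2 + q) (hm : 3 ≤ m) (hqm : q + 2 ≤ m ∨ (q + 1 ≤ m ∧ 7 ≤ m))
    (hNF : D * e ≤ ∑ i, M i * a i) (i0 : Fin n) (hi0 : i0 ∈ Sm α) (hai0 : a i0 = m) :
    3110 * m ^ 3 ≤ ∑ i ∈ Sm α, a i ^ 2 ∨ 9400 * m ^ 3 ≤ e := by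
  have hD : 0 < D := by
    rcases Nat.eq_zero_or_pos D with h | h
    · subst h
      simp at hν
      omega
    · exact h
  obtain ⟨l, hl⟩ : ∃ l : ℝ, l = (e : ℝ) / D := ⟨_, rfl⟩
  have hD' : (0 : ℝ) < D := by exact_mod_cast hD
  have he' : (0 : ℝ) < e := by exact_mod_cast he
  have hlD : l * D = e := by rw [hl]; field_simp
  have hl0 : 0 < l := by rw [hl]; positivity
  have k1 := close e D ν q a M hD hν hq hNF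
  have k3 := close_norm2 e D ν q a M hD hν hq hNF (Sm α)
  rw [← hl] at k1 k3
  have k4 : (l * M i0 - a i0) ^ 2 ≤ ∑ i, (l * M i - a i) ^ 2 :=
    Finset.single_le_sum (f := fun i => (l * M i - a i) ^ 2) (fun _ _ => sq_nonneg _)
      (Finset.mem_univ i0)
  have hν0' : (0 : ℝ) < ν := by exact_mod_cast hν0
  have k5 : ((m : ℝ) - l * M i0) ^ 2 + l ^ 2 * ν ≤ q := by
    have h1 : ((m : ℝ) - l * M i0) ^ 2 = (l * M i0 - a i0) ^ 2 := by rw [hai0]; ring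
    rw [h1]
    linarith
  have hy : 0 ≤ l * (M i0 : ℝ) := by positivity
  have hyx : l * (M i0 : ℝ) ≤ l * X :=
    mul_le_mul_of_nonneg_left (by exact_mod_cast hother i0 hi0) hl0.le
  have ha : 0 < l ^ 2 * (ν : ℝ) := by positivity
  have hqc : (q : ℝ) ≤ m - 2 ∨ ((q : ℝ) ≤ m - 1 ∧ 7 ≤ m) := by
    rcases hqm with h | ⟨h, h'⟩
    · left
      have : (q : ℝ) + 2 ≤ m := by exact_mod_cast h
      linarith
    · right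
      have : (q : ℝ) + 1 ≤ m := by exact_mod_cast h
      exact ⟨by linarith, h'⟩
  have hS0 : (0 : ℝ) ≤ ∑ i ∈ Sm α, (M i : ℝ) ^ 2 := Finset.sum_nonneg fun i _ => sq_nonneg _
  have hA0 : (0 : ℝ) ≤ ∑ i ∈ Sm α, (a i : ℝ) ^ 2 := Finset.sum_nonneg fun i _ => sq_nonneg _
  rcases hthin with h | h | h
  · exfalso
    have h' : (X : ℝ) ^ 2 < 7 * ν := by exact_mod_cast h
    refine real_seven m q (l * X) (l * M i0) (l ^ 2 * ν) hy hyx k5 ?_ ?_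
    · rcases hqc with h1 | ⟨h1, h2⟩
      · exact Or.inl h1
      · exact Or.inr ⟨h1, by exact_mod_cast h2⟩
    · have h1 : (l * (X : ℝ)) ^ 2 = l ^ 2 * (X : ℝ) ^ 2 := by ring
      have h2 : 7 * (l ^ 2 * (ν : ℝ)) = l ^ 2 * (7 * ν) := by ring
      rw [h1, h2]
      exact mul_lt_mul_of_pos_left h' (by positivity)
  · left
    have h' : (5000 : ℝ) * (X : ℝ) ^ 4 ≤ ν * ∑ i ∈ Sm α, (M i : ℝ) ^ 2 := by exact_mod_cast h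
    have h1 : 5000 * (l * (X : ℝ)) ^ 4 ≤ (l ^ 2 * ν) * (l ^ 2 * ∑ i ∈ Sm α, (M i : ℝ) ^ 2) := by
      have e1 : 5000 * (l * (X : ℝ)) ^ 4 = l ^ 4 * (5000 * (X : ℝ) ^ 4) := by ring
      have e2 : (l ^ 2 * ν) * (l ^ 2 * ∑ i ∈ Sm α, (M i : ℝ) ^ 2) =
          l ^ 4 * (ν * ∑ i ∈ Sm α, (M i : ℝ) ^ 2) := by ring
      rw [e1, e2]
      exact mul_le_mul_of_nonneg_left h' (by positivity)
    have h2 : Real.sqrt (l ^ 2 * ∑ i ∈ Sm α, (M i : ℝ) ^ 2) ≤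
        Real.sqrt (∑ i ∈ Sm α, (a i : ℝ) ^ 2) + Real.sqrt (q - l ^ 2 * ν) := by
      rw [Real.sqrt_mul (sq_nonneg l), Real.sqrt_sq hl0.le]
      exact k3
    have hT0 : (0 : ℝ) ≤ l ^ 2 * ∑ i ∈ Sm α, (M i : ℝ) ^ 2 := mul_nonneg (sq_nonneg l) hS0
    generalize (l ^ 2 * ∑ i ∈ Sm α, (M i : ℝ) ^ 2) = T at h1 h2 hT0
    have h3 : 3110 * (m : ℝ) ^ 3 ≤ ∑ i ∈ Sm α, (a i : ℝ) ^ 2 := by
      generalize (∑ i ∈ Sm α, (a i : ℝ) ^ 2) = A at h2 hA0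
      exact real_thin m q (l * X) (l * M i0) (l ^ 2 * ν) T A hm hy hyx ha k5 hqc hA0 hT0 h1 h2
    exact_mod_cast h3
  · right
    have h' : (15000 : ℝ) * (X : ℝ) ^ 5 ≤ (ν : ℝ) ^ 2 * D := by exact_mod_cast h
    have h1 : 15000 * (l * (X : ℝ)) ^ 5 ≤ (l ^ 2 * ν) ^ 2 * e := by
      have e1 : 15000 * (l * (X : ℝ)) ^ 5 = l ^ 5 * (15000 * (X : ℝ) ^ 5) := by ring
      have e2 : (l ^ 2 * (ν : ℝ)) ^ 2 * e = l ^ 5 * ((ν : ℝ) ^ 2 * D) := by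
        rw [← hlD]; ring
      rw [e1, e2]
      exact mul_le_mul_of_nonneg_left h' (by positivity)
    have h3 := real_deg m q (l * X) (l * M i0) (l ^ 2 * ν) e hm hy hyx ha k5 hqc h1
    exact_mod_cast h3

end Pool.MP_70e04f_ag.Strip
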