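import Pool.Agent.Lib_MP_70e04f_gon.GDefs

/-!
# Piece GRAT: numerical bound for the classes of rational curves
-/

set_option autoImplicit false

namespace Pool.MP_70e04f_ag.Strip

/-- PROOF. Let `τ = ∑ a (β s)`, `T = a (β 8)`, `σ = ∑ i ∈ Sm β, a i`, `κ = 3 e - τ`. By `hK`, `hK2`
(`sum_Sm`): `κ ≤ σ` and `σ + 2 ≤ κ + q`. `abel_nine` for `a (β s) - T`, `e - 3 T` (both for `a` and `M`; the sum is
`τ - 9 T ≤ 3 (e - 3 T)`, and the last `M` is zero): `∑ (a (β s) - T) ^ 2 ≤ (e - 3 T) ^ 2`, that is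
`∑ a (β s) ^ 2 + 2 T κ ≤ e ^ 2`. So `q + 2 T κ ≤ ∑ i ∈ Sm β, a i ^ 2 ≤ T σ`. `κ ≥ 1` (`hnine`), so `σ ≥ 1`, `T ≥ 1`
(some `a i ≥ 1` in `Sm β`, and `a i ≤ T`), and `2 κ < σ`, so `2 (σ + 2 - q) < σ`, `σ + 4 < 2 q`. All the
nonzero `a i` with `i ∈ Sm β` are `≥ q + 1` (`hxu`), so there is exactly one of them, `a i0 = σ ≥ q + 1`, so
`q + 5 < 2 q`, `q ≥ 6` and `m ≥ a i0 ≥ 7`. -/
theorem num_rat {n : ℕ} (e q m : ℕ) (a : Fin n → ℕ) (β : Fin 9 → Fin n)
    (hβ : Function.Injective β) (hanti : Antitone (fun j => a (β j)))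
    (hother : ∀ i, i ∉ Set.range β → a i ≤ a (β 8)) (hstd : a (β 0) + a (β 1) + a (β 2) ≤ e)
    (hnine : ∑ s, a (β s) + 1 ≤ 3 * e) (hq : ∑ i, a i ^ 2 = e ^ 2 + q)
    (hxu : ∀ i, 1 ≤ a i → q + 1 ≤ a i) (hK : 3 * e ≤ ∑ i, a i) (hK2 : ∑ i, a i + 2 ≤ 3 * e + q)
    (hm : ∀ i, i ∉ Set.range β → a i ≤ m) : 7 ≤ m := by
  have hmem : ∀ i, i ∈ Sm β → i ∉ Set.range β := fun i hi => mem_Sm.1 hi
  have s1 := sum_Sm hβ a
  have s2 := sum_Sm hβ (fun i => a i ^ 2)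
  have h08 : ∀ s, a (β 8) ≤ a (β s) := fun s => hanti (Fin.le_last s)
  have h00 : ∀ s, a (β s) ≤ a (β 0) := fun s => hanti (Fin.zero_le s)
  have hab := abel_nine ((e : ℤ) - 3 * a (β 8)) ((e : ℤ) - 3 * a (β 8))
    (fun s => (a (β s) : ℤ) - a (β 8)) (fun s => (a (β s) : ℤ) - a (β 8))
    (fun s => by have := h08 s; omega)
    (fun s => by
      have e1 := h00 s
      have e2 := h08 1
      have e3 := h08 2
      omega)
    (by
      rw [Finset.sum_sub_distrib]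
      simp only [Finset.sum_const, Finset.card_univ, Fintype.card_fin, nsmul_eq_mul]
      have h2 : ((∑ s, a (β s) : ℕ) : ℤ) + 1 ≤ 3 * e := by exact_mod_cast hnine
      rw [Nat.cast_sum] at h2
      push_cast
      linarith)
    (fun s t hst => by
      have : a (β t) ≤ a (β s) := hanti hst
      show (a (β t) : ℤ) - a (β 8) ≤ a (β s) - a (β 8)
      omega)
    (by omega)
  obtain ⟨T, hT⟩ : ∃ T, T = a (β 8) := ⟨a (β 8), rfl⟩
  rw [← hT] at hab hother h08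
  obtain ⟨σ, hσ⟩ : ∃ t : ℕ, t = ∑ i ∈ Sm β, a i := ⟨_, rfl⟩
  obtain ⟨τ, hτ⟩ : ∃ t : ℕ, t = ∑ s, a (β s) := ⟨_, rfl⟩
  rw [← hσ, ← hτ] at s1
  rw [← hτ] at hnine
  rw [s1] at hK hK2
  rw [s2] at hq
  have hsq : ∑ i ∈ Sm β, a i ^ 2 ≤ T * σ := by
    rw [hσ, Finset.mul_sum]
    refine Finset.sum_le_sum fun i hi => ?_
    rw [pow_two]
    exact Nat.mul_le_mul_right _ (hother i (hmem i hi))
  have hexp : (∑ s, ((a (β s) : ℤ) - T) * ((a (β s) : ℤ) - T)) = ((∑ s, a (β s) ^ 2 : ℕ) : ℤ) - 2 * T * τ + 9 * T ^ 2 := by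
    have : ∀ s, ((a (β s) : ℤ) - T) * ((a (β s) : ℤ) - T)
        = (a (β s) : ℤ) ^ 2 - 2 * T * a (β s) + T ^ 2 := fun s => by ring
    rw [Finset.sum_congr rfl fun s _ => this s, Finset.sum_add_distrib, Finset.sum_sub_distrib,
      ← Finset.mul_sum, hτ]
    simp only [Finset.sum_const, Finset.card_univ, Fintype.card_fin, nsmul_eq_mul]
    push_cast
    ring
  generalize (∑ s, a (β s) ^ 2) = τ2 at s2 hq hexp
  generalize (∑ i ∈ Sm β, a i ^ 2) = ρ2 at s2 hq hsq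
  have hkey : (τ2 : ℤ) + 2 * T * (3 * e - τ) ≤ e ^ 2 := by
    rw [hexp] at hab
    rw [sub_self, zero_mul, add_zero] at hab
    linarith [hab]
  -- q + 2 T κ ≤ T σ
  have hmain : (q : ℤ) + 2 * T * (3 * e - τ) ≤ T * σ := by
    have h1 : (τ2 : ℤ) + ρ2 = e ^ 2 + q := by exact_mod_cast hq
    have h2 : (ρ2 : ℤ) ≤ T * σ := by exact_mod_cast hsq
    linarith
  have hT0 : 1 ≤ T := by
    by_contra hcon
    have hT00 : T = 0 := by omega
    have hσ0 : σ = 0 := by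
      rw [hσ]
      refine Finset.sum_eq_zero fun i hi => ?_
      have := hother i (hmem i hi)
      omega
    omega
  have hq1 : 1 ≤ q := by
    by_contra hcon
    have hq0 : q = 0 := by omega
    omega
  have h2k : 2 * (3 * (e : ℤ) - τ) < σ := by
    by_contra hcon
    push Not at hcon
    have hqq : (1 : ℤ) ≤ q := by exact_mod_cast hq1
    have h3 := mul_le_mul_of_nonneg_left hcon (show (0 : ℤ) ≤ T by omega)
    linarith [h3]
  have hσq : σ + 4 < 2 * q := by omega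
  have hσ1 : 1 ≤ σ := by omega
  obtain ⟨i0, hi0, hi1⟩ : ∃ i ∈ Sm β, 1 ≤ a i := by
    by_contra hcon
    push Not at hcon
    have h0 : σ = 0 := by
      rw [hσ]
      exact Finset.sum_eq_zero fun i hi => Nat.lt_one_iff.1 (hcon i hi)
    rw [h0] at hσ1
    exact absurd hσ1 (by norm_num)
  have hge : a i0 ≤ σ := by
    rw [hσ]
    exact Finset.single_le_sum (f := a) (fun _ _ => Nat.zero_le _) hi0
  have hx := hxu i0 hi1
  have hm0 := hm i0 (hmem i0 hi0)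
  -- only one nonzero
  have heq : σ = a i0 := by
    rw [hσ]
    refine Finset.sum_eq_single_of_mem i0 hi0 fun j hj hji => ?_
    by_contra hne
    have hj1 : 1 ≤ a j := by omega
    have hxj := hxu j hj1
    have h2 : a i0 + a j ≤ σ := by
      rw [hσ, ← Finset.sum_pair (f := a) (Ne.symm hji)]
      refine Finset.sum_le_sum_of_subset ?_
      intro x hx
      rw [Finset.mem_insert, Finset.mem_singleton] at hx
      rcases hx with rfl | rfl
      · exact hi0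
      · exact hj
    omega
  omega

end Pool.MP_70e04f_ag.Strip
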