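import Mathlib

/-!
# Piece GREAL: real inequalities
-/

set_option autoImplicit false

namespace Pool.MP_70e04f_ag.Strip

/-- PROOF. `y ^ 2 ≤ x ^ 2 < 7 a`, so `(m - y) ^ 2 + y ^ 2 / 7 < q`, and
`(m - y) ^ 2 + y ^ 2 / 7 = m ^ 2 / 8 + (8 / 7) (y - 7 m / 8) ^ 2`. So `m ^ 2 < 8 q`. If `q ≤ m - 2`:
`(m - 4) ^ 2 < 0`. If `q ≤ m - 1`, `m ≥ 7`: `m ^ 2 - 8 m + 8 < 0`, impossible. -/
theorem real_seven (m q x y a : ℝ) (hy : 0 ≤ y) (hyx : y ≤ x) (h : (m - y) ^ 2 + a ≤ q)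
    (hq : q ≤ m - 2 ∨ (q ≤ m - 1 ∧ 7 ≤ m)) (h7 : x ^ 2 < 7 * a) : False := by
  have hy2 : y ^ 2 ≤ x ^ 2 := by nlinarith
  rcases hq with hq | ⟨hq, hm⟩
  · nlinarith [sq_nonneg (y - 7 * m / 8), sq_nonneg (m - 4)]
  · nlinarith [sq_nonneg (y - 7 * m / 8), mul_nonneg (sub_nonneg.mpr hm) (sub_nonneg.mpr hm)]

theorem GReal_case (m q c y a : ℝ) (hm : 0 < m) (h : (m - y) ^ 2 + a ≤ q)
    (hc : 0 ≤ 4 * c ^ 3 * m * (63 / 100 * m ^ 3) - 3 * c ^ 4 * (63 / 100 * m ^ 3)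
      - (63 / 100 * m ^ 3) ^ 2 * q - 4 * c ^ 6) : 63 / 100 * a * m ^ 3 ≤ y ^ 4 := by
  have hA : 0 < 63 / 100 * m ^ 3 := by positivity
  generalize hAm : 63 / 100 * m ^ 3 = A at hA hc
  have h1 : 0 ≤ (y - c) ^ 2 * (y ^ 2 + 2 * c * y + 3 * c ^ 2) :=
    mul_nonneg (sq_nonneg _) (by nlinarith [sq_nonneg (y + c), sq_nonneg c])
  have h2 : 0 ≤ A * (4 * c ^ 3 * y - 3 * c ^ 4 + A * ((m - y) ^ 2 - q)) := by
    nlinarith [sq_nonneg (A * (y - m) + 2 * c ^ 3)]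
  have h3 : 0 ≤ 4 * c ^ 3 * y - 3 * c ^ 4 + A * ((m - y) ^ 2 - q) :=
    (mul_nonneg_iff_of_pos_left hA).mp h2
  have h4 : A * a ≤ A * (q - (m - y) ^ 2) := mul_le_mul_of_nonneg_left (by linarith) hA.le
  have h5 : 63 / 100 * a * m ^ 3 = A * a := by rw [← hAm]; ring
  rw [h5]
  nlinarith [h1, h3, h4]

/-- PROOF. If `y ≥ m` then `a ≤ q ≤ m - 1 ≤ m` and `a m ^ 3 ≤ m ^ 4 ≤ x ^ 4`. Otherwise put `t = m - y`,
`0 < t ≤ m`; `a ≤ q - t ^ 2` and `x ^ 4 ≥ (m - t) ^ 4`. If `m ≥ 16`: `(m - t) ^ 4 ≥ m ^ 4 - 4 t m ^ 3` (Bernoulli) and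
`m - 4 t - (63 / 100) (m - 1 - t ^ 2) ≥ 0` (discriminant). For `3 ≤ m ≤ 15` (`interval_cases m`), with
`q = m - 2` if `m ≤ 6` and `q = m - 1` otherwise, the polynomial
`(m - t) ^ 4 - (63 / 100) (q - t ^ 2) m ^ 3` in `t` is positive everywhere (`nlinarith` with a square
`(t ^ 2 + α t + β) ^ 2`, and `(t - γ) ^ 2`); e.g. for `m = 7` its minimum is at `t = 1.45`. -/
theorem real_four (m : ℕ) (q x y a : ℝ) (hm : 3 ≤ m) (hy : 0 ≤ y) (hyx : y ≤ x) (ha : 0 < a)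
    (h : (m - y) ^ 2 + a ≤ q) (hq : q ≤ m - 2 ∨ (q ≤ m - 1 ∧ 7 ≤ m)) :
    63 / 100 * a * (m : ℝ) ^ 3 ≤ x ^ 4 := by
  have hm3 : (3 : ℝ) ≤ (m : ℝ) := by exact_mod_cast hm
  have hq1 : q ≤ (m : ℝ) - 1 := by
    rcases hq with hq | ⟨hq, _⟩ <;> linarith
  have hyx4 : y ^ 4 ≤ x ^ 4 := pow_le_pow_left₀ hy hyx 4
  refine le_trans ?_ hyx4
  have hm0 : (0 : ℝ) < (m : ℝ) := by linarith
  rcases le_or_gt (m : ℝ) y with hmy | hmy
  · have h1 : (m : ℝ) ^ 4 ≤ y ^ 4 := pow_le_pow_left₀ hm0.le hmy 4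
    have h2 : a ≤ (m : ℝ) := by nlinarith [sq_nonneg ((m : ℝ) - y)]
    have h3 : 63 / 100 * a * (m : ℝ) ^ 3 ≤ 1 * (m : ℝ) * (m : ℝ) ^ 3 := by
      apply mul_le_mul_of_nonneg_right _ (by positivity)
      nlinarith
    nlinarith
  · rcases le_or_gt 16 m with h16 | h16
    · have h16' : (16 : ℝ) ≤ (m : ℝ) := by exact_mod_cast h16
      have hm3' : (0 : ℝ) < (m : ℝ) ^ 3 := by positivity
      have hb : (m : ℝ) ^ 3 * (4 * y - 3 * (m : ℝ)) ≤ y ^ 4 := by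
        have : 0 ≤ (y - (m : ℝ)) ^ 2 * (y ^ 2 + 2 * (m : ℝ) * y + 3 * (m : ℝ) ^ 2) := by
          positivity
        nlinarith
      have hd : 63 / 100 * a ≤ 4 * y - 3 * (m : ℝ) := by
        nlinarith [sq_nonneg ((m : ℝ) - y - 200 / 63)]
      calc 63 / 100 * a * (m : ℝ) ^ 3 = (m : ℝ) ^ 3 * (63 / 100 * a) := by ring
        _ ≤ (m : ℝ) ^ 3 * (4 * y - 3 * (m : ℝ)) := mul_le_mul_of_nonneg_left hd hm3'.le
        _ ≤ y ^ 4 := hb
    · interval_cases m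
      · exact GReal_case _ 1 (2) y a (by norm_num) (by rcases hq with hq | ⟨hq, h7⟩ <;> norm_num at * <;> linarith) (by norm_num)
      · exact GReal_case _ 2 (29 / 10) y a (by norm_num) (by rcases hq with hq | ⟨hq, h7⟩ <;> norm_num at * <;> linarith) (by norm_num)
      · exact GReal_case _ 3 (37 / 10) y a (by norm_num) (by rcases hq with hq | ⟨hq, h7⟩ <;> norm_num at * <;> linarith) (by norm_num)
      · exact GReal_case _ 4 (23 / 5) y a (by norm_num) (by rcases hq with hq | ⟨hq, h7⟩ <;> norm_num at * <;> linarith) (by norm_num)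
      · exact GReal_case _ 6 (11 / 2) y a (by norm_num) (by rcases hq with hq | ⟨hq, h7⟩ <;> norm_num at * <;> linarith) (by norm_num)
      · exact GReal_case _ 7 (32 / 5) y a (by norm_num) (by rcases hq with hq | ⟨hq, h7⟩ <;> norm_num at * <;> linarith) (by norm_num)
      · exact GReal_case _ 8 (73 / 10) y a (by norm_num) (by rcases hq with hq | ⟨hq, h7⟩ <;> norm_num at * <;> linarith) (by norm_num)
      · exact GReal_case _ 9 (41 / 5) y a (by norm_num) (by rcases hq with hq | ⟨hq, h7⟩ <;> norm_num at * <;> linarith) (by norm_num)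
      · exact GReal_case _ 10 (46 / 5) y a (by norm_num) (by rcases hq with hq | ⟨hq, h7⟩ <;> norm_num at * <;> linarith) (by norm_num)
      · exact GReal_case _ 11 (101 / 10) y a (by norm_num) (by rcases hq with hq | ⟨hq, h7⟩ <;> norm_num at * <;> linarith) (by norm_num)
      · exact GReal_case _ 12 (111 / 10) y a (by norm_num) (by rcases hq with hq | ⟨hq, h7⟩ <;> norm_num at * <;> linarith) (by norm_num)
      · exact GReal_case _ 13 (12) y a (by norm_num) (by rcases hq with hq | ⟨hq, h7⟩ <;> norm_num at * <;> linarith) (by norm_num)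
      · exact GReal_case _ 14 (13) y a (by norm_num) (by rcases hq with hq | ⟨hq, h7⟩ <;> norm_num at * <;> linarith) (by norm_num)

end Pool.MP_70e04f_ag.Strip
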