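import Pool.Agent.Lib_MP_70e04f_gon.GDefs

/-!
# Piece GSEC: the derivative of a curve along the movement of a point
-/

set_option autoImplicit false

namespace Pool.MP_70e04f_ag.Strip

open MvPolynomial

private theorem GSec_shift_mapDer {k : Type*} [Field k] (q : Fin 2 → k) (F : A2 k)
    (D : Derivation ℤ k k) :
    shift q (mapDer D F) = mapDer D (shift q F) - C (D (q 0)) * pderiv 0 (shift q F)
      - C (D (q 1)) * pderiv 1 (shift q F) := by
  rw [mapDer_shift D q F]
  ring

private theorem GSec_coeff {k : Type*} [Field k] (q : Fin 2 → k) (F : A2 k)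
    (D : Derivation ℤ k k) (a b : ℕ) :
    coeff (mon a b) (shift q (mapDer D F)) = D (coeff (mon a b) (shift q F))
      - D (q 0) * (((a : k) + 1) * coeff (mon (a + 1) b) (shift q F))
      - D (q 1) * (((b : k) + 1) * coeff (mon a (b + 1)) (shift q F)) := by
  rw [GSec_shift_mapDer, coeff_sub, coeff_sub, coeff_C_mul, coeff_C_mul, coeff_mapDer,
    coeff_pderiv_zero, coeff_pderiv_one]

/-- PROOF. `totalDegree_mapDer_le`. For a point `i` let `f = shift (p i) F`, so `coeff (mon a b) f = 0` for
`a + b < mu (p i) F` (`mem_mp_pow`, `mem_iff_le_mu`). `mapDer_shift` with `q = p i`: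
`shift (p i) (mapDer D F) = mapDer D f - C (D (p i 0)) * pderiv 0 f - C (D (p i 1)) * pderiv 1 f`. The
coefficients of `mapDer D f` of degree `< mu` vanish (`coeff_mapDer`), the ones of `pderiv c f` of degree
`< mu - 1` (`coeff_pderiv_zero`, `coeff_pderiv_one`), and `D (p i c) = 0` for `i ≠ j`. -/
theorem mapDer_sec {k : Type*} [Field k] {n : ℕ} (p : Fin n → Fin 2 → k) {F : A2 k} (hF : F ≠ 0)
    (j : Fin n) (D : Derivation ℤ k k) (hD : ∀ i c, i ≠ j → D (p i c) = 0) :
    mapDer D F ∈ Pt k F.totalDegree ∧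
      mapDer D F ∈ Iz p (fun i => if i = j then mu (p i) F - 1 else mu (p i) F) := by
  refine ⟨mem_Pt.2 (totalDegree_mapDer_le D F), mem_Iz.2 fun i => ?_⟩
  have hv : ∀ a b : ℕ, a + b < mu (p i) F → coeff (mon a b) (shift (p i) F) = 0 :=
    mem_mp_pow.1 ((mem_iff_le_mu hF _).2 le_rfl)
  rw [mem_mp_pow]
  intro a b hab
  rw [GSec_coeff]
  by_cases hij : i = j
  · simp only [hij, if_true] at hab
    rw [← hij] at hab
    rw [hv a b (by omega), hv (a + 1) b (by omega), hv a (b + 1) (by omega)]
    simp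
  · simp only [hij, if_false] at hab
    rw [hv a b hab, hD i 0 hij, hD i 1 hij]
    simp

end Pool.MP_70e04f_ag.Strip
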