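import Pool.Agent.Lib_MP_70e04f_gon.GSingA

/-!
# Piece GSING: a curve does not move along with one of its singular points
-/

set_option autoImplicit false

namespace Pool.MP_70e04f_ag.Strip

open MvPolynomial

theorem GSing_coeff {k : Type*} [Field k] (f : A2 k) (i : Fin 2) (m : Fin 2 →₀ ℕ) :
    coeff m (pderiv i f) = coeff (m + Finsupp.single i 1) f * ((m i : k) + 1) := by
  rw [coeff_pderiv]

theorem GSing_comm {k : Type*} [Field k] (D : Derivation ℤ k k) (f : A2 k) (i : Fin 2) :
    mapDer D (pderiv i f) = pderiv i (mapDer D f) := by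
  ext m
  rw [coeff_mapDer, GSing_coeff, GSing_coeff, coeff_mapDer, Derivation.leibniz, smul_eq_mul,
    smul_eq_mul]
  have h : D ((m i : k) + 1) = 0 := by
    have := D.map_natCast (m i + 1)
    rwa [Nat.cast_add, Nat.cast_one] at this
  rw [h]
  ring

theorem GSing_mem {k : Type*} [Field k] {p : Fin 2 → k} {f : A2 k} (hp : f ∈ mp p ^ 2)
    (i : Fin 2) : pderiv i f ∈ mp p := by
  rw [pow_two] at hp
  induction hp using Submodule.mul_induction_on' with
  | mem_mul_mem a ha b hb =>
    rw [pderiv_mul]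
    exact add_mem (Ideal.mul_mem_left _ _ hb) (Ideal.mul_mem_right _ _ ha)
  | add a _ b _ ha hb =>
    rw [map_add]
    exact add_mem ha hb

theorem GSing_exists {k : Type*} [Field k] {f : A2 k} (hf : Irreducible f)
    (hchar : ∀ s : ℕ, 1 ≤ s → s ≤ f.totalDegree ^ 2 → (s : k) ≠ 0) :
    ∃ i : Fin 2, pderiv i f ≠ 0 := by
  classical
  have h1 : ∃ s ∈ f.support, s ≠ 0 := by
    by_contra hcon
    push Not at hcon
    have h2 : f = C (coeff 0 f) := by
      ext s
      rw [coeff_C]
      split_ifs with h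
      · rw [h]
      · by_contra h3
        exact h ((hcon s (mem_support_iff.2 h3)).symm)
    have h3 : coeff 0 f ≠ 0 := by
      intro h4
      rw [h4, C_0] at h2
      exact hf.ne_zero h2
    apply hf.not_isUnit
    rw [h2]
    exact (isUnit_iff_ne_zero.2 h3).map C
  obtain ⟨s, hs, hs0⟩ := h1
  obtain ⟨i, hi⟩ := Finsupp.ne_iff.1 hs0
  have hi : s i ≠ 0 := hi
  refine ⟨i, fun h => ?_⟩
  have h2 := GSing_coeff f i (s - Finsupp.single i 1)
  have h3 : s - Finsupp.single i 1 + Finsupp.single i 1 = s := by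
    apply tsub_add_cancel_of_le
    rw [Finsupp.single_le_iff]
    omega
  rw [h, coeff_zero, h3] at h2
  have h4 : (((s - Finsupp.single i 1 : Fin 2 →₀ ℕ) i : ℕ) : k) + 1 = (s i : k) := by
    have h5 : (s - Finsupp.single i 1 : Fin 2 →₀ ℕ) i + 1 = s i := by
      rw [Finsupp.tsub_apply, Finsupp.single_eq_same]
      omega
    rw [← h5, Nat.cast_add, Nat.cast_one]
  rw [h4] at h2
  have h5 : s i ≤ f.totalDegree := by
    refine le_trans ?_ (le_totalDegree hs)
    rw [Finsupp.sum_fintype _ _ (fun _ => rfl)]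
    exact Finset.single_le_sum (f := fun j => s j) (fun _ _ => Nat.zero_le _) (Finset.mem_univ i)
  have h6 := hchar (s i) (by omega) (h5.trans (by nlinarith))
  exact mul_ne_zero (mem_support_iff.1 hs) h6 h2.symm

theorem GSing_deg {k : Type*} [Field k] {f : A2 k} {i : Fin 2} (h : pderiv i f ≠ 0) :
    (pderiv i f).totalDegree < f.totalDegree := by
  obtain ⟨m, hm, hm2⟩ : ∃ m ∈ (pderiv i f).support, (pderiv i f).totalDegree = m.sum fun _ e => e := by
    rw [totalDegree_eq]
    have hne : (pderiv i f).support.Nonempty := by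
      rw [support_nonempty]
      exact h
    obtain ⟨m, hm, e⟩ := Finset.exists_mem_eq_sup _ hne (fun m => Multiset.card m.toMultiset)
    refine ⟨m, hm, ?_⟩
    rw [e, Finsupp.card_toMultiset]
    rfl
  have h2 : m + Finsupp.single i 1 ∈ f.support := by
    rw [mem_support_iff] at hm ⊢
    rw [GSing_coeff] at hm
    exact left_ne_zero_of_mul hm
  have h3 := le_totalDegree h2
  rw [Finsupp.sum_add_index' (fun _ => rfl) (fun _ _ _ => rfl), Finsupp.sum_single_index rfl] at h3
  omega

/-- A singular point of a curve which is constant up to a factor is constant.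
PROOF. `e = deg f ≥ 1`. Some variable `X c` occurs in a monomial of `f` with an exponent `1 ≤ s ≤ e`, and
`(s : k) ≠ 0` (`hchar`, `e ≤ e ^ 2`), so `g = pderiv c f ≠ 0`; `deg g ≤ e - 1`, so `f` does not divide `g` and
`bez` (`irr_relPrime`) shows that `J = pr f ⊔ pr g` has `FinC` and `len J ≤ e (e - 1) ≤ e ^ 2`. `J` is stable:
`mapDer D f = C h * f`, `mapDer D g = pderiv c (mapDer D f) = C h * g` (compare coefficients, or
`mapDer` commutes with `pderiv`), and `mapDer_add`, `mapDer_mul`. `J ≤ mp p` since `f ∈ mp p ^ 2` and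
`g ∈ mp p` (`mem_mp_pow`: the coefficients of degree `≤ 1` of `shift p f` vanish; `shift` commutes with
`pderiv`). `der_const`. -/
theorem der_sing {k : Type*} [Field k] (D : Derivation ℤ k k) {f : A2 k} (hf : Irreducible f)
    {h : k} (hD : mapDer D f = C h * f) {p : Fin 2 → k} (hp : f ∈ mp p ^ 2)
    (hchar : ∀ s : ℕ, 1 ≤ s → s ≤ f.totalDegree ^ 2 → (s : k) ≠ 0) (c : Fin 2) : D (p c) = 0 := by
  obtain ⟨i, hi⟩ := GSing_exists hf hchar
  have hdeg := GSing_deg hi
  have hnd : ¬ f ∣ pderiv i f := fun h1 => by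
    have := totalDegree_le_of_dvd_of_isDomain h1 hi
    omega
  obtain ⟨hfin, hlen⟩ := bez hf.ne_zero hi (irr_relPrime hf hnd)
  refine der_const D hfin ?_ ?_ (fun s hs1 hs2 => hchar s hs1 ?_) c
  · intro x hx
    obtain ⟨y, hy, z, hz, rfl⟩ := Submodule.mem_sup.1 hx
    obtain ⟨a, rfl⟩ := mem_pr.1 hy
    obtain ⟨b, rfl⟩ := mem_pr.1 hz
    rw [mapDer_add, mapDer_mul, mapDer_mul, GSing_comm, hD, pderiv_C_mul]
    apply add_mem
    · apply Ideal.mem_sup_left
      rw [mem_pr]
      exact ⟨C h * a + mapDer D a, by ring⟩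
    · apply Ideal.mem_sup_right
      rw [mem_pr]
      exact ⟨C h * b + mapDer D b, by ring⟩
  · rw [sup_le_iff]
    refine ⟨?_, ?_⟩
    · intro x hx
      obtain ⟨a, rfl⟩ := mem_pr.1 hx
      exact Ideal.mul_mem_right _ _ (Ideal.pow_le_self two_ne_zero hp)
    · intro x hx
      obtain ⟨a, rfl⟩ := mem_pr.1 hx
      exact Ideal.mul_mem_right _ _ (GSing_mem hp i)
  · refine hs2.trans (hlen.trans ?_)
    rw [pow_two]
    exact Nat.mul_le_mul_left _ hdeg.le

end Pool.MP_70e04f_ag.Strip
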