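import Pool.Agent.Lib_MP_70e04f_gon.GDefs

/-!
# Piece GSINGA: ideals which are stable under a derivation
-/

set_option autoImplicit false

namespace Pool.MP_70e04f_ag.Strip

open MvPolynomial

/-- applying a derivation to the coefficients commutes with the substitution `T = X c` -/
private theorem GSingA_aeval {k : Type*} [Field k] [Differential k] (c : Fin 2)
    (f : Polynomial k) :
    mapDer Differential.deriv (Polynomial.aeval (X c : A2 k) f) =
      Polynomial.aeval (X c : A2 k) (Differential.mapCoeffs f) := by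
  have hpow : ∀ n : ℕ, mapDer (Differential.deriv : Derivation ℤ k k) ((X c : A2 k) ^ n) = 0 := by
    intro n
    induction n with
    | zero =>
      have h1 : ((X c : A2 k) ^ 0) = C 1 := by rw [pow_zero, C_1]
      rw [h1, SDerA_mapDer_C, Derivation.map_one_eq_zero, C_0]
    | succ n ih => rw [pow_succ, mapDer_mul, ih, SDerA_mapDer_X, zero_mul, mul_zero, add_zero]
  induction f using Polynomial.induction_on' with
  | add p q hp hq => rw [map_add, mapDer_add, hp, hq, map_add, map_add]
  | monomial n a =>
    rw [Differential.mapCoeffs_monomial, Polynomial.aeval_monomial, Polynomial.aeval_monomial,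
      mapDer_mul, hpow, mul_zero, add_zero, MvPolynomial.algebraMap_eq, SDerA_mapDer_C]

/-- A zero of an ideal of finite codimension which is stable under a derivation of the constants is
constant.
PROOF. Let `χ` be the minimal polynomial over `k` of the class `x` of `X c` in the algebra `A2 k ⧸ J`
(integral since the algebra is finite dimensional, `FinC`, `sp J` has the same underlying set as `J`);
its degree is at most `len J`. Let `D χ` be the polynomial with the coefficients `D (coeff i χ)`
(`Derivation.mapCoeffs` for the derivation `D` of `k`, or by hand). Since `χ` is monic, `D χ` has smaller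
degree. `mapDer D (aeval (X c) χ) = aeval (X c) (D χ)` (`mapDer D (X c) = 0`: `SDerA_mapDer_X`; on
monomials) is in `J` by `hJ`, so `aeval x (D χ) = 0` and `D χ = 0` (`minpoly.degree_le_of_ne_zero`). As
`aeval (X c) χ ∈ J ≤ mp p`, `χ (p c) = 0`. Write `χ = (T - p c) ^ s * ψ` with `ψ (p c) ≠ 0`
(`Polynomial.exists_eq_pow_rootMultiplicity_mul_and_not_dvd`), `1 ≤ s ≤ len J`. Apply `D`:
`0 = - s (D (p c)) (T - p c) ^ (s - 1) ψ + (T - p c) ^ s D ψ`; divide by `(T - p c) ^ (s - 1)` and
evaluate at `p c`: `s (D (p c)) ψ (p c) = 0`. -/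
theorem der_const {k : Type*} [Field k] (D : Derivation ℤ k k) {J : Ideal (A2 k)} (hfin : FinC J)
    (hJ : ∀ f ∈ J, mapDer D f ∈ J) {p : Fin 2 → k} (hp : J ≤ mp p)
    (hchar : ∀ s : ℕ, 1 ≤ s → s ≤ len J → (s : k) ≠ 0) (c : Fin 2) : D (p c) = 0 := by
  classical
  let _ : Differential k := ⟨D⟩
  have hD : (Differential.deriv : Derivation ℤ k k) = D := rfl
  have e : (A2 k ⧸ sp J) ≃ₗ[k] (A2 k ⧸ J) := Submodule.Quotient.restrictScalarsEquiv k J
  have hf1 : Module.Finite k (A2 k ⧸ sp J) := hfin
  have hf2 : Module.Finite k (A2 k ⧸ J) := Module.Finite.equiv e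
  have hlen : len J = Module.finrank k (A2 k ⧸ J) := e.finrank_eq
  set x : A2 k ⧸ J := Ideal.Quotient.mk J (X c) with hx
  have haev : ∀ f : Polynomial k, Polynomial.aeval x f =
      Ideal.Quotient.mk J (Polynomial.aeval (X c : A2 k) f) := by
    intro f
    have h1 := Polynomial.aeval_algHom_apply (Ideal.Quotient.mkₐ k J) (X c : A2 k) f
    exact h1
  have hint : IsIntegral k x := Algebra.IsIntegral.isIntegral x
  set χ := minpoly k x with hχ
  have hmon : χ.Monic := minpoly.monic hint
  have hne : χ ≠ 0 := hmon.ne_zero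
  have hdeg : χ.natDegree ≤ len J := by
    rw [hlen]
    exact minpoly.natDegree_le x
  have hmem : Polynomial.aeval (X c : A2 k) χ ∈ J := by
    rw [← Ideal.Quotient.eq_zero_iff_mem, ← haev]
    exact minpoly.aeval k x
  -- the derivative of the minimal polynomial vanishes
  have hder : Differential.mapCoeffs χ = 0 := by
    by_contra h
    have h1 : Polynomial.aeval x (Differential.mapCoeffs χ) = 0 := by
      rw [haev, Ideal.Quotient.eq_zero_iff_mem, ← GSingA_aeval]
      exact hJ _ hmem
    have h2 := minpoly.degree_le_of_ne_zero k x h h1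
    have h3 : (Differential.mapCoeffs χ).degree < χ.degree := by
      rw [Polynomial.degree_eq_natDegree hne, Polynomial.degree_lt_iff_coeff_zero]
      intro m hm
      rw [Differential.coeff_mapCoeffs]
      rcases Nat.lt_or_ge χ.natDegree m with h4 | h4
      · rw [Polynomial.coeff_eq_zero_of_natDegree_lt h4, map_zero]
      · have h5 : m = χ.natDegree := le_antisymm h4 hm
        rw [h5, hmon.coeff_natDegree, Derivation.map_one_eq_zero]
    exact absurd h2 (not_le.2 h3)
  -- `p c` is a root
  have hroot : χ.eval (p c) = 0 := by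
    have h1 : eval p (Polynomial.aeval (X c : A2 k) χ) = 0 := hp hmem
    have h2 : eval p (Polynomial.aeval (X c : A2 k) χ) = χ.eval (p c) := by
      have h3 := Polynomial.aeval_algHom_apply (MvPolynomial.aeval p : A2 k →ₐ[k] k) (X c : A2 k) χ
      rw [MvPolynomial.aeval_X] at h3
      rw [← Polynomial.coe_aeval_eq_eval, h3]
      rfl
    rw [← h2, h1]
  obtain ⟨ψ, hψ, hψ'⟩ := Polynomial.exists_eq_pow_rootMultiplicity_mul_and_not_dvd χ hne (p c)
  set s := χ.rootMultiplicity (p c) with hs
  have hs1 : 1 ≤ s := (Polynomial.rootMultiplicity_pos hne).2 hroot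
  have hs2 : s ≤ len J := by
    refine le_trans ?_ hdeg
    have h1 : ((Polynomial.X - Polynomial.C (p c)) ^ s * ψ).natDegree = s + ψ.natDegree := by
      rw [Polynomial.natDegree_mul (pow_ne_zero _ (Polynomial.X_sub_C_ne_zero _)),
        Polynomial.natDegree_pow, Polynomial.natDegree_X_sub_C, mul_one]
      rintro rfl
      exact hψ' (dvd_zero _)
    rw [hψ, h1]
    exact Nat.le_add_right _ _
  clear_value s
  obtain ⟨t, rfl⟩ : ∃ t, s = t + 1 := ⟨s - 1, by omega⟩
  have hψ0 : ψ.eval (p c) ≠ 0 := fun h => hψ' (Polynomial.dvd_iff_isRoot.2 h)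
  set L : Polynomial k := Polynomial.X - Polynomial.C (p c) with hL
  have hL0 : L ≠ 0 := Polynomial.X_sub_C_ne_zero _
  have hLD : Differential.mapCoeffs L = - Polynomial.C (D (p c)) := by
    rw [hL, map_sub, Differential.mapCoeffs_X, Differential.mapCoeffs_C, zero_sub]
    rfl
  have h1 : L ^ t * (((t + 1 : ℕ) : Polynomial k) * (- Polynomial.C (D (p c))) * ψ +
      L * Differential.mapCoeffs ψ) = 0 := by
    have h2 := hder
    rw [hψ, Derivation.leibniz, Derivation.leibniz_pow, hLD] at h2
    simp only [smul_eq_mul, nsmul_eq_mul, Nat.add_sub_cancel] at h2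
    rw [← h2]
    ring
  have h3 := (mul_eq_zero.1 h1).resolve_left (pow_ne_zero _ hL0)
  have h4 := congrArg (Polynomial.eval (p c)) h3
  have h5 : L.eval (p c) = 0 := by simp [hL]
  simp only [Polynomial.eval_add, Polynomial.eval_mul, Polynomial.eval_neg, Polynomial.eval_C,
    Polynomial.eval_natCast, Polynomial.eval_zero, h5, zero_mul, add_zero] at h4
  have h6 := hchar (t + 1) hs1 hs2
  rcases mul_eq_zero.1 h4 with h7 | h7
  · rcases mul_eq_zero.1 h7 with h8 | h8
    · exact absurd h8 h6
    · exact neg_eq_zero.1 h8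
  · exact absurd h7 hψ0

end Pool.MP_70e04f_ag.Strip
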