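import Pool.Agent.Lib_MP_70e04f_gon.GSec
import Pool.Agent.Lib_MP_70e04f_gon.GSing

/-!
# Piece GTWO: two independent sections given by the movement of a singular point
-/

set_option autoImplicit false

namespace Pool.MP_70e04f_ag.Strip

open MvPolynomial

/-- PROOF. `u = mapDer d0 F`, `w = mapDer d1 F`; `mapDer_sec`. Suppose `F ∣ C α * u + C γ * w`; this is
`mapDer D F` with `D = α • d0 + γ • d1` (`coeff_mapDer`), of degree `≤ deg F`, so it is `C h * F`. By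
`der_sing` (`F ∈ mp (p j) ^ 2`) `D (p j c) = 0` for `c = 0, 1`, and `D (p j 0) = α`, `D (p j 1) = γ`. -/
theorem two_sec {k : Type*} [Field k] {n : ℕ} (p : Fin n → Fin 2 → k) (j : Fin n)
    (d0 d1 : Derivation ℤ k k) (h0 : ∀ i c, d0 (p i c) = if i = j ∧ c = 0 then 1 else 0)
    (h1 : ∀ i c, d1 (p i c) = if i = j ∧ c = 1 then 1 else 0) {F : A2 k} (hF : Irreducible F)
    (hj : 2 ≤ mu (p j) F)
    (hchar : ∀ s : ℕ, 1 ≤ s → s ≤ F.totalDegree ^ 2 → (s : k) ≠ 0) :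
    ∃ u w : A2 k, u ∈ Pt k F.totalDegree ∧ w ∈ Pt k F.totalDegree ∧
      u ∈ Iz p (fun i => if i = j then mu (p i) F - 1 else mu (p i) F) ∧
      w ∈ Iz p (fun i => if i = j then mu (p i) F - 1 else mu (p i) F) ∧
      ∀ α γ : k, F ∣ C α * u + C γ * w → α = 0 ∧ γ = 0 := by
  have hF0 : F ≠ 0 := hF.ne_zero
  obtain ⟨u1, u2⟩ := mapDer_sec p hF0 j d0 (fun i c hi => by
    rw [h0, if_neg (fun h => hi h.1)])
  obtain ⟨w1, w2⟩ := mapDer_sec p hF0 j d1 (fun i c hi => by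
    rw [h1, if_neg (fun h => hi h.1)])
  refine ⟨mapDer d0 F, mapDer d1 F, u1, w1, u2, w2, fun α γ hdvd => ?_⟩
  have e1 : C α * mapDer d0 F + C γ * mapDer d1 F = mapDer (α • d0 + γ • d1) F := by
    ext s
    rw [coeff_add, coeff_C_mul, coeff_C_mul, coeff_mapDer, coeff_mapDer, coeff_mapDer]
    simp
  rw [e1] at hdvd
  have h3 : mapDer (α • d0 + γ • d1) F ∈ Pt k F.totalDegree :=
    mem_Pt.2 (totalDegree_mapDer_le _ _)
  obtain ⟨h, hh⟩ : ∃ h : k, mapDer (α • d0 + γ • d1) F = C h * F := by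
    obtain ⟨H, hH⟩ := hdvd
    by_cases hH0 : H = 0
    · exact ⟨0, by rw [hH, hH0, mul_zero, C_0, zero_mul]⟩
    · have h4 := totalDegree_mul_of_isDomain hF0 hH0
      rw [← hH] at h4
      have h5 := mem_Pt.1 h3
      have h6 : H.totalDegree = 0 := by omega
      rw [totalDegree_eq_zero_iff_eq_C] at h6
      refine ⟨coeff 0 H, ?_⟩
      rw [hH, mul_comm]
      conv_lhs => rw [h6]
  have h4 : F ∈ mp (p j) ^ 2 := (mem_iff_le_mu hF0 2).2 hj
  have h5 := der_sing (α • d0 + γ • d1) hF hh h4 hchar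
  have h6 := h5 0
  have h7 := h5 1
  rw [Derivation.add_apply, Derivation.smul_apply, Derivation.smul_apply, h0, h1] at h6 h7
  simp at h6 h7
  exact ⟨h6, h7⟩

end Pool.MP_70e04f_ag.Strip
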