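import Pool.Agent.Lib_MP_70e04f_gon.GDerA
import Pool.Agent.Lib_MP_70e04f_gon.GTwo
import Pool.Agent.Lib_MP_70e04f_gon.GGon

/-!
# Piece GXU: the refined lemma of Xu
-/

set_option autoImplicit false

namespace Pool.MP_70e04f_ag.Strip

open MvPolynomial

variable {n ℓ : ℕ} [Fact ℓ.Prime]

/-- Two independent sections given by the movement of a singular point.
PROOF. `two_sec` with the extensions (`exists_der_frac`) of the derivations `pderiv (j, 0)`,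
`pderiv (j, 1)` of `RR n ℓ` (restricted to `ℤ`), and `cast_ne_zero_KK`. -/
theorem exists_two_sec {F : A2 (KK n ℓ)} (hF : Irreducible F) (hdeg : F.totalDegree ^ 2 < ℓ)
    {j : Fin n} (hj : 2 ≤ mu (gp n ℓ j) F) :
    ∃ u w : A2 (KK n ℓ), u ∈ Pt (KK n ℓ) F.totalDegree ∧ w ∈ Pt (KK n ℓ) F.totalDegree ∧
      u ∈ Iz (gp n ℓ) (fun i => if i = j then mu (gp n ℓ i) F - 1 else mu (gp n ℓ i) F) ∧
      w ∈ Iz (gp n ℓ) (fun i => if i = j then mu (gp n ℓ i) F - 1 else mu (gp n ℓ i) F) ∧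
      ∀ α γ : KK n ℓ, F ∣ C α * u + C γ * w → α = 0 ∧ γ = 0 := by
  classical
  obtain ⟨d0, hd0⟩ := exists_der_frac (K := KK n ℓ)
    ((pderiv (R := ZMod ℓ) (j, (0 : Fin 2))).restrictScalars ℤ)
  obtain ⟨d1, hd1⟩ := exists_der_frac (K := KK n ℓ)
    ((pderiv (R := ZMod ℓ) (j, (1 : Fin 2))).restrictScalars ℤ)
  refine two_sec (gp n ℓ) j d0 d1 ?_ ?_ hF hj
    (fun s h1 h2 => cast_ne_zero_KK h1 (lt_of_le_of_lt h2 hdeg))
  · intro i c
    have h1 : d0 (gp n ℓ i c) = algebraMap (RR n ℓ) (KK n ℓ)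
        (pderiv (R := ZMod ℓ) (j, (0 : Fin 2)) (X (i, c))) := hd0 _
    rw [h1, pderiv_X]
    by_cases h : i = j ∧ c = 0
    · rw [if_pos h, h.1, h.2, Pi.single_eq_same, map_one]
    · rw [if_neg h, Pi.single_eq_of_ne, map_zero]
      intro he
      exact h ⟨congrArg Prod.fst he, congrArg Prod.snd he⟩
  · intro i c
    have h1 : d1 (gp n ℓ i c) = algebraMap (RR n ℓ) (KK n ℓ)
        (pderiv (R := ZMod ℓ) (j, (1 : Fin 2)) (X (i, c))) := hd1 _
    rw [h1, pderiv_X]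
    by_cases h : i = j ∧ c = 1
    · rw [if_pos h, h.1, h.2, Pi.single_eq_same, map_one]
    · rw [if_neg h, Pi.single_eq_of_ne, map_zero]
      intro he
      exact h ⟨congrArg Prod.fst he, congrArg Prod.snd he⟩

theorem GXu_dotp (F : A2 (KK n ℓ)) {j : Fin n} (hj : 2 ≤ mu (gp n ℓ j) F) :
    dotp F.totalDegree (fun i => if i = j then mu (gp n ℓ i) F - 1 else mu (gp n ℓ i) F)
      (gp n ℓ) F =
      (F.totalDegree : ℤ) ^ 2 - ((∑ i, mu (gp n ℓ i) F ^ 2 : ℕ) : ℤ) + mu (gp n ℓ j) F := by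
  classical
  unfold dotp
  have h1 : ∀ i, ((if i = j then mu (gp n ℓ i) F - 1 else mu (gp n ℓ i) F : ℕ) : ℤ) *
      mu (gp n ℓ i) F = ((mu (gp n ℓ i) F ^ 2 : ℕ) : ℤ) -
        (if i = j then (mu (gp n ℓ j) F : ℤ) else 0) := by
    intro i
    by_cases h : i = j
    · subst h
      rw [if_pos rfl, if_pos rfl, Nat.cast_sub (by omega)]
      push_cast
      ring
    · rw [if_neg h, if_neg h]
      push_cast
      ring
  rw [Finset.sum_congr rfl fun i _ => h1 i, Finset.sum_sub_distrib, Finset.sum_ite_eq']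
  simp only [Finset.mem_univ, if_true]
  push_cast
  ring

/-- PROOF. With `β` as in `exists_two_sec`, `dotp e β F = e ^ 2 - ∑ mu ^ 2 + mu j =: δ`, and `δ ≥ 0` by `xu`. If
`δ = 0`: `gon_zero` (`gp_inj`, `infinite_KK`). -/
theorem xu_one {F : A2 (KK n ℓ)} (hF : Irreducible F) (hG : GIrr F)
    (hdeg : F.totalDegree ^ 2 < ℓ) {j : Fin n} (hj : 2 ≤ mu (gp n ℓ j) F) :
    ∑ i, mu (gp n ℓ i) F ^ 2 + 1 ≤ F.totalDegree ^ 2 + mu (gp n ℓ j) F := by
  have he : 1 ≤ F.totalDegree := spos_deg hF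
  have hlt : F.totalDegree < ℓ := by nlinarith
  have h0 := xu hF hlt j (by omega)
  by_contra hcon
  have heq : ∑ i, mu (gp n ℓ i) F ^ 2 = F.totalDegree ^ 2 + mu (gp n ℓ j) F := by omega
  obtain ⟨u, w, hu, hw, huβ, hwβ, hind⟩ := exists_two_sec hF hdeg hj
  have hn : 0 < n := lt_of_le_of_lt (Nat.zero_le _) j.2
  have := infinite_KK ℓ hn
  refine gon_zero (gp_inj n ℓ) hF hG F.totalDegree _ ?_ hu hw huβ hwβ hind
  rw [GXu_dotp F hj, heq]
  push_cast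
  ring

/-- PROOF. As `xu_one`, and `gon_one` for `δ = 1`. -/
theorem xu_two {F : A2 (KK n ℓ)} (hF : Irreducible F) (hG : GIrr F)
    (hdeg : F.totalDegree ^ 2 < ℓ) {j : Fin n} (hj : 2 ≤ mu (gp n ℓ j) F)
    (hgen : ∑ i, (mu (gp n ℓ i) F : ℤ) * ((mu (gp n ℓ i) F : ℤ) - 1) ≤
      (F.totalDegree : ℤ) * (F.totalDegree - 3)) :
    ∑ i, mu (gp n ℓ i) F ^ 2 + 2 ≤ F.totalDegree ^ 2 + mu (gp n ℓ j) F := by
  have h0 := xu_one hF hG hdeg hj
  by_contra hcon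
  have heq : ∑ i, mu (gp n ℓ i) F ^ 2 + 1 = F.totalDegree ^ 2 + mu (gp n ℓ j) F := by omega
  obtain ⟨u, w, hu, hw, huβ, hwβ, hind⟩ := exists_two_sec hF hdeg hj
  have hn : 0 < n := lt_of_le_of_lt (Nat.zero_le _) j.2
  have := infinite_KK ℓ hn
  have h1 := gon_one (gp_inj n ℓ) hF hG F.totalDegree _ (fun i => by
    by_cases h : i = j
    · rw [if_pos h]; omega
    · rw [if_neg h]; omega) (by
      rw [GXu_dotp F hj]
      have h2 : ((∑ i, mu (gp n ℓ i) F ^ 2 : ℕ) : ℤ) + 1 =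
          (F.totalDegree : ℤ) ^ 2 + mu (gp n ℓ j) F := by exact_mod_cast heq
      linarith) hu hw huβ hwβ hind
  linarith

end Pool.MP_70e04f_ag.Strip
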